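import Pool.Agent.Q68.Perm.Ferrers

set_option autoImplicit false

/-!
# 3-adic valuations of the cofactors and the exponential lower bound
-/

open Finset

namespace Pool.Agent.Q68.Perm

/-- the alternating sum of `t` over `t < 2 s + 1`. -/
theorem alt_id (s : ℕ) : ∑ t ∈ range (2 * s + 1), ((-1 : ℤ)) ^ t * (t : ℤ) = s := by
  induction s with
  | zero => simp
  | succ s ih =>
    rw [show 2 * (s + 1) + 1 = (2 * s + 1) + 1 + 1 by ring, Finset.sum_range_succ,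
      Finset.sum_range_succ, ih]
    have : (-1 : ℤ) ^ (2 * s + 1) = -1 := Odd.neg_one_pow ⟨s, rfl⟩
    have h2 : (-1 : ℤ) ^ (2 * s + 1 + 1) = 1 := Even.neg_one_pow ⟨s + 1, by ring⟩
    rw [this, h2]; push_cast; ring

/-- odd powers are the identity modulo 3. -/
theorem odd_pow_mod3 (t : ℤ) (s : ℕ) : (3 : ℤ) ∣ t ^ (2 * s + 1) - t := by
  induction s with
  | zero => simp
  | succ s ih =>
    have h : (3 : ℤ) ∣ t ^ 3 - t := by
      have h3 : t % 3 = 0 ∨ t % 3 = 1 ∨ t % 3 = 2 := by omega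
      obtain ⟨q, hq⟩ : ∃ q, q = t / 3 := ⟨_, rfl⟩
      have ht : t = 3 * q + t % 3 := by omega
      rcases h3 with h | h | h <;> rw [h] at ht <;> subst ht
      · exact ⟨9 * q ^ 3 - q, by ring⟩
      · exact ⟨9 * q ^ 3 + 9 * q ^ 2 + 2 * q, by ring⟩
      · exact ⟨9 * q ^ 3 + 18 * q ^ 2 + 11 * q + 2, by ring⟩
    have : t ^ (2 * (s + 1) + 1) - t = t ^ 2 * (t ^ (2 * s + 1) - t) + (t ^ 3 - t) := by ring
    rw [this]
    exact dvd_add (Dvd.dvd.mul_left ih _) h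

/-- `∑_{t < 3^(2s+1)} (-1)^t t^(2s+1)` is `1` modulo 3. -/
theorem alt_pow_mod3 (s : ℕ) :
    (3 : ℤ) ∣ (∑ t ∈ range (3 ^ (2 * s + 1)), ((-1 : ℤ)) ^ t * (t : ℤ) ^ (2 * s + 1)) - 1 := by
  have h1 : (3 : ℤ) ∣ (∑ t ∈ range (3 ^ (2 * s + 1)), ((-1 : ℤ)) ^ t * (t : ℤ) ^ (2 * s + 1)) -
      ∑ t ∈ range (3 ^ (2 * s + 1)), ((-1 : ℤ)) ^ t * (t : ℤ) := by
    rw [← Finset.sum_sub_distrib]
    refine Finset.dvd_sum fun t _ => ?_
    rw [← mul_sub]
    exact Dvd.dvd.mul_left (odd_pow_mod3 _ _) _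
  obtain ⟨r, hr⟩ : ∃ r : ℕ, (3 : ℕ) ^ (2 * s + 1) = 2 * r + 1 := by
    have : Odd ((3 : ℕ) ^ (2 * s + 1)) := Odd.pow (by decide)
    exact this
  rw [hr, alt_id] at h1
  rw [hr]
  have h3 : (3 : ℤ) ∣ (r : ℤ) - 1 := by
    have : (3 : ℕ) ∣ 2 * r + 1 := by
      rw [← hr]; exact dvd_pow_self 3 (by omega)
    omega
  have := dvd_add h1 h3
  have h4 : ∀ a c d : ℤ, a - c + (c - d) = a - d := fun a c d => by ring
  rw [h4] at this
  exact this

/-- grouping a sum by residues modulo 3. -/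
theorem sum_range_three_mul (K : ℕ) (g : ℕ → ℤ) :
    ∑ x ∈ range (3 * K), g x = ∑ t ∈ range K, (g (3 * t) + g (3 * t + 1) + g (3 * t + 2)) := by
  induction K with
  | zero => simp
  | succ K ih =>
    rw [show 3 * (K + 1) = 3 * K + 1 + 1 + 1 by ring, Finset.sum_range_succ,
      Finset.sum_range_succ, Finset.sum_range_succ, Finset.sum_range_succ, ih]
    ring

/-- the `3`-adic evaluation of the alternating sums. -/
theorem alt_poly (s u v : ℕ) (hu : 2 * s + 2 ≤ u) (hv : 2 * s + 2 ≤ v) :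
    ∃ w : ℤ, ¬ (3 : ℤ) ∣ w ∧ (3 : ℤ) ^ (2 * s + 2) ∣
      (∑ x ∈ range (3 ^ (2 * s + 2)), (-1) ^ x *
        ((x : ℤ) ^ u * ((x : ℤ) - 1) ^ (2 * s + 1) * ((x : ℤ) + 1) ^ v)) -
      3 ^ (2 * s + 1) * w := by
  set S : ℤ := ∑ t ∈ range (3 ^ (2 * s + 1)), ((-1 : ℤ)) ^ t * (t : ℤ) ^ (2 * s + 1) with hS
  refine ⟨-(2 ^ v * S), ?_, ?_⟩
  · intro h
    have hS1 := alt_pow_mod3 s
    rw [← hS] at hS1
    have h2 : (3 : ℤ) ∣ 2 ^ v * S := by
      have := dvd_neg.mpr h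
      simpa using this
    have hp : Prime (3 : ℤ) := Int.prime_three
    rcases hp.dvd_or_dvd h2 with h3 | h3
    · have := hp.dvd_of_dvd_pow h3
      omega
    · omega
  · rw [show (3 : ℕ) ^ (2 * s + 2) = 3 * 3 ^ (2 * s + 1) by ring, sum_range_three_mul]
    have : (3 : ℤ) ^ (2 * s + 1) * -(2 ^ v * S) = ∑ t ∈ range (3 ^ (2 * s + 1)),
        -((-1) ^ t * (3 ^ (2 * s + 1) * (t : ℤ) ^ (2 * s + 1) * 2 ^ v)) := by
      rw [hS, Finset.mul_sum, ← Finset.sum_neg_distrib, Finset.mul_sum]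
      refine Finset.sum_congr rfl fun t _ => ?_
      ring
    rw [this, ← Finset.sum_sub_distrib]
    refine Finset.dvd_sum fun t _ => ?_
    have e0 : (3 : ℤ) ^ (2 * s + 2) ∣ (-1) ^ (3 * t) *
        (((3 * t : ℕ) : ℤ) ^ u * (((3 * t : ℕ) : ℤ) - 1) ^ (2 * s + 1) *
          (((3 * t : ℕ) : ℤ) + 1) ^ v) := by
      refine Dvd.dvd.mul_left (Dvd.dvd.mul_right (Dvd.dvd.mul_right ?_ _) _) _
      refine dvd_trans (pow_dvd_pow 3 hu) ?_
      exact pow_dvd_pow_of_dvd ⟨(t : ℤ), by push_cast; ring⟩ _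
    have e2 : (3 : ℤ) ^ (2 * s + 2) ∣ (-1) ^ (3 * t + 2) *
        (((3 * t + 2 : ℕ) : ℤ) ^ u * (((3 * t + 2 : ℕ) : ℤ) - 1) ^ (2 * s + 1) *
          (((3 * t + 2 : ℕ) : ℤ) + 1) ^ v) := by
      refine Dvd.dvd.mul_left (Dvd.dvd.mul_left ?_ _) _
      refine dvd_trans (pow_dvd_pow 3 hv) ?_
      exact pow_dvd_pow_of_dvd ⟨(t : ℤ) + 1, by push_cast; ring⟩ _
    have e1 : (3 : ℤ) ^ (2 * s + 2) ∣ (-1) ^ (3 * t + 1) *
        (((3 * t + 1 : ℕ) : ℤ) ^ u * (((3 * t + 1 : ℕ) : ℤ) - 1) ^ (2 * s + 1) *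
          (((3 * t + 1 : ℕ) : ℤ) + 1) ^ v) -
        -((-1) ^ t * (3 ^ (2 * s + 1) * (t : ℤ) ^ (2 * s + 1) * 2 ^ v)) := by
      have h1 : (3 : ℤ) ∣ (((3 * t + 1 : ℕ) : ℤ) ^ u * (((3 * t + 1 : ℕ) : ℤ) + 1) ^ v) -
          2 ^ v := by
        have a1 : ((3 * t + 1 : ℕ) : ℤ) ^ u ≡ 1 ^ u [ZMOD 3] :=
          Int.ModEq.pow u (by
            rw [Int.modEq_iff_dvd]; exact ⟨-(t : ℤ), by push_cast; ring⟩)
        have a2 : (((3 * t + 1 : ℕ) : ℤ) + 1) ^ v ≡ 2 ^ v [ZMOD 3] :=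
          Int.ModEq.pow v (by
            rw [Int.modEq_iff_dvd]; exact ⟨-(t : ℤ), by push_cast; ring⟩)
        have a3 := (a1.mul a2).symm
        rw [Int.modEq_iff_dvd] at a3
        simpa using a3
      have h2 : (-1 : ℤ) ^ (3 * t + 1) = -(-1) ^ t := by
        rw [pow_succ, pow_mul]; norm_num
      rw [h2]
      have h3 : -(-1 : ℤ) ^ t *
        (((3 * t + 1 : ℕ) : ℤ) ^ u * (((3 * t + 1 : ℕ) : ℤ) - 1) ^ (2 * s + 1) *
          (((3 * t + 1 : ℕ) : ℤ) + 1) ^ v) -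
        -((-1) ^ t * (3 ^ (2 * s + 1) * (t : ℤ) ^ (2 * s + 1) * 2 ^ v)) =
        3 ^ (2 * s + 1) * ((((3 * t + 1 : ℕ) : ℤ) ^ u * (((3 * t + 1 : ℕ) : ℤ) + 1) ^ v) -
          2 ^ v) * (-(-1) ^ t * (t : ℤ) ^ (2 * s + 1)) := by
        have : (((3 * t + 1 : ℕ) : ℤ) - 1) = 3 * (t : ℤ) := by push_cast; ring
        rw [this, mul_pow]
        ring
      rw [h3]
      refine Dvd.dvd.mul_right ?_ _
      rw [pow_succ (3 : ℤ) (2 * s + 1)]
      exact mul_dvd_mul_left _ h1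
    have := dvd_add (dvd_add e0 e1) e2
    convert this using 1
    ring

/-- the heights of the Ferrers board. -/
def bd (m : ℕ) (i : ℕ) : ℕ := if i ≤ m then i - 1 else i

theorem bd_mono (m : ℕ) : Monotone (bd m) := by
  intro i j hij
  unfold bd
  split_ifs <;> omega

theorem bd_le (m i : ℕ) : bd m i ≤ i := by
  unfold bd
  split_ifs <;> omega

/-- the cofactor with row `i` removed. -/
def P (m N : ℕ) (i : Fin (N + 1)) : ℤ := (FM N (fun k => bd m (i.succAbove k))).permanent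

/-- the product of linear factors of the cofactor. -/
theorem prod_bd (m N : ℕ) (i : Fin (N + 1)) (h1 : 1 ≤ (i : ℕ)) (h2 : (i : ℕ) ≤ m) (h3 : m ≤ N)
    (x : ℤ) :
    (∏ k : Fin N, (x + ((bd m (i.succAbove k) : ℕ) : ℤ) - ((k : ℕ) : ℤ))) =
      x ^ (m - i + 1) * (x - 1) ^ ((i : ℕ) - 1) * (x + 1) ^ (N - m) := by
  have hφ : ∀ k : Fin N, (x + ((bd m (i.succAbove k) : ℕ) : ℤ) - ((k : ℕ) : ℤ)) =
      (fun l : ℕ => if l = 0 then x else if l < i then x - 1 else if l < m then x else x + 1)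
        (k : ℕ) := by
    intro k
    dsimp only
    have hk := k.2
    have hi := i.2
    by_cases hk : k.castSucc < i
    · have hs : i.succAbove k = k.castSucc := Fin.succAbove_of_castSucc_lt i k hk
      have hk' : (k : ℕ) < i := by simpa [Fin.lt_def] using hk
      rw [hs]
      simp only [Fin.val_castSucc]
      by_cases h0 : (k : ℕ) = 0
      · simp [h0, bd]
      · rw [if_neg h0, if_pos hk']
        have : bd m (k : ℕ) = (k : ℕ) - 1 := by
          unfold bd; rw [if_pos (by omega)]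
        rw [this, Nat.cast_sub (by omega)]
        push_cast
        ring
    · have hs : i.succAbove k = k.succ := Fin.succAbove_of_le_castSucc i k (not_lt.mp hk)
      have hk' : (i : ℕ) ≤ k := by
        have := not_lt.mp hk
        simpa [Fin.le_def] using this
      rw [hs]
      simp only [Fin.val_succ]
      rw [if_neg (by omega), if_neg (by omega)]
      by_cases hm : (k : ℕ) < m
      · have : bd m ((k : ℕ) + 1) = (k : ℕ) := by
          unfold bd; rw [if_pos (by omega)]; omega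
        rw [this, if_pos hm]
        ring
      · have : bd m ((k : ℕ) + 1) = (k : ℕ) + 1 := by
          unfold bd; rw [if_neg (by omega)]
        rw [this, if_neg hm]
        push_cast
        ring
  simp only [hφ]
  rw [Fin.prod_univ_eq_prod_range
    (fun l : ℕ => if l = 0 then x else if l < (i : ℕ) then x - 1 else if l < m then x else x + 1) N]
  rw [Finset.range_eq_Ico]
  rw [← Finset.prod_Ico_consecutive _ (Nat.zero_le 1) (show 1 ≤ N by omega),
    ← Finset.prod_Ico_consecutive _ h1 (show (i : ℕ) ≤ N by omega),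
    ← Finset.prod_Ico_consecutive _ h2 h3]
  have p0 : (∏ l ∈ Ico 0 1, if l = 0 then x else if l < (i : ℕ) then x - 1 else
      if l < m then x else x + 1) = x := by simp
  have p1 : (∏ l ∈ Ico 1 (i : ℕ), if l = 0 then x else if l < (i : ℕ) then x - 1 else
      if l < m then x else x + 1) = (x - 1) ^ ((i : ℕ) - 1) := by
    rw [Finset.prod_congr rfl (g := fun _ => x - 1), Finset.prod_const, Nat.card_Ico]
    intro l hl
    rw [Finset.mem_Ico] at hl
    rw [if_neg (by omega), if_pos hl.2]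
  have p2 : (∏ l ∈ Ico (i : ℕ) m, if l = 0 then x else if l < (i : ℕ) then x - 1 else
      if l < m then x else x + 1) = x ^ (m - (i : ℕ)) := by
    rw [Finset.prod_congr rfl (g := fun _ => x), Finset.prod_const, Nat.card_Ico]
    intro l hl
    rw [Finset.mem_Ico] at hl
    rw [if_neg (by omega), if_neg (by omega), if_pos hl.2]
  have p3 : (∏ l ∈ Ico m N, if l = 0 then x else if l < (i : ℕ) then x - 1 else
      if l < m then x else x + 1) = (x + 1) ^ (N - m) := by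
    rw [Finset.prod_congr rfl (g := fun _ => x + 1), Finset.prod_const, Nat.card_Ico]
    intro l hl
    rw [Finset.mem_Ico] at hl
    rw [if_neg (by omega), if_neg (by omega), if_neg (by omega)]
  rw [p0, p1, p2, p3]
  ring

/-- **The 3-adic valuation of the even cofactors.** -/
theorem P_val (m N s : ℕ) (i : Fin (N + 1)) (hi : (i : ℕ) = 2 * s + 2)
    (h2 : 4 * s + 4 ≤ m + 1) (h3 : m + 2 * s + 2 ≤ N) :
    (3 : ℤ) ^ (2 * s + 1) ∣ P m N i ∧ ¬ (3 : ℤ) ^ (2 * s + 2) ∣ P m N i := by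
  have hper := per_FM (3 ^ (2 * s + 2)) (Odd.pow (by decide)) N
    (fun k => bd m (i.succAbove k))
    (fun k l hkl => bd_mono m ((Fin.strictMono_succAbove i).monotone hkl))
    (fun k => le_trans (bd_le m _) (by
      unfold Fin.succAbove
      split_ifs <;> simp))
  have hprod : ∀ x : ℕ, (∏ k : Fin N, ((x : ℤ) + ((bd m (i.succAbove k) : ℕ) : ℤ) -
      ((k : ℕ) : ℤ))) = (x : ℤ) ^ (m - i + 1) * ((x : ℤ) - 1) ^ (2 * s + 1) *
        ((x : ℤ) + 1) ^ (N - m) := by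
    intro x
    rw [prod_bd m N i (by omega) (by omega) (by omega)]
    congr 3
    omega
  simp only [hprod] at hper
  obtain ⟨w, hw, hdvd⟩ := alt_poly s (m - i + 1) (N - m) (by omega) (by omega)
  push_cast at hper
  have h4 := dvd_add hper (Dvd.dvd.mul_left hdvd ((-2) ^ N))
  have h5 : (3 : ℤ) ^ (2 * s + 2) ∣ P m N i - 3 ^ (2 * s + 1) * ((-2) ^ N * w) := by
    have h6 : ∀ p c S T w : ℤ, (p - c * S) + c * (S - T * w) = p - T * (c * w) :=
      fun p c S T w => by ring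
    rw [h6] at h4
    exact h4
  constructor
  · have h6 : (3 : ℤ) ^ (2 * s + 1) ∣ P m N i - 3 ^ (2 * s + 1) * ((-2) ^ N * w) :=
      dvd_trans (pow_dvd_pow 3 (by omega)) h5
    have := dvd_add h6 (Dvd.intro ((-2) ^ N * w) rfl : (3 : ℤ) ^ (2 * s + 1) ∣
      3 ^ (2 * s + 1) * ((-2) ^ N * w))
    simpa using this
  · intro h7
    have h8 := dvd_sub h7 h5
    rw [sub_sub_cancel, pow_succ (3 : ℤ) (2 * s + 1)] at h8
    have h9 : (3 : ℤ) ∣ (-2) ^ N * w :=
      (mul_dvd_mul_iff_left (pow_ne_zero _ (by norm_num))).mp h8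
    rcases Int.prime_three.dvd_or_dvd h9 with h | h
    · have := Int.prime_three.dvd_of_dvd_pow h
      omega
    · exact hw h

end Pool.Agent.Q68.Perm
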