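import Pool.Agent.Q68.Perm.Orbit
import Pool.Agent.Q68.Perm.Val

set_option autoImplicit false

/-!
# Permanents of `|j - k| + t δ_{jk}` modulo an odd prime
-/

open Finset

namespace Pool.Agent.Q68.Perm

/-- the entry of the matrix. -/
def wt {p : ℕ} (t : ℤ) (i l : ZMod p) : ℤ :=
  |(i.val : ℤ) - (l.val : ℤ)| + if i = l then t else 0

theorem wt_shift {p : ℕ} [Fact p.Prime] (t : ℤ) (i l : ZMod p) :
    ((wt t (i + 1) (l + 1) : ℤ) : ZMod p) =
      ((if i = -1 then -1 else 1) * (if l = -1 then -1 else 1)) * ((wt t i l : ℤ) : ZMod p) := by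
  have hp : 1 < p := (Fact.out : p.Prime).one_lt
  haveI : NeZero p := ⟨by omega⟩
  have hval : ∀ j : ZMod p, j ≠ -1 → (j + 1).val = j.val + 1 := by
    intro j hj
    have h1 : j.val + 1 < p := by
      have h2 : j.val < p := ZMod.val_lt j
      by_contra hcon
      have h3 : j.val + 1 = p := by omega
      apply hj
      have h4 : ((j.val + 1 : ℕ) : ZMod p) = 0 := by rw [h3]; simp
      rw [Nat.cast_add, ZMod.natCast_zmod_val] at h4
      simp only [Nat.cast_one] at h4
      exact eq_neg_of_add_eq_zero_left h4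
    have h5 : ((j.val + 1 : ℕ) : ZMod p) = j + 1 := by
      rw [Nat.cast_add, ZMod.natCast_zmod_val]; simp
    rw [← h5, ZMod.val_natCast, Nat.mod_eq_of_lt h1]
  have hvl : ((-1 : ZMod p)).val = p - 1 := by
    have h1 : ((p - 1 : ℕ) : ZMod p) = -1 := by
      rw [Nat.cast_sub hp.le]; simp
    rw [← h1, ZMod.val_natCast, Nat.mod_eq_of_lt (by omega)]
  have hc : ∀ j : ZMod p, ((j.val : ℤ) : ZMod p) = j := by
    intro j
    rw [Int.cast_natCast, ZMod.natCast_zmod_val]
  unfold wt
  by_cases hi : i = -1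
  · by_cases hl : l = -1
    · subst hi; subst hl; simp
    · subst hi
      have hne : ¬ ((-1 : ZMod p) = l) := fun h => hl h.symm
      have hne' : ¬ ((-1 : ZMod p) + 1 = l + 1) := fun h => hne (add_right_cancel h)
      rw [if_neg hne, if_neg hne', if_pos rfl, if_neg hl, hval l hl, hvl, neg_add_cancel,
        ZMod.val_zero]
      have h1 : |((0 : ℕ) : ℤ) - ((l.val + 1 : ℕ) : ℤ)| = (l.val : ℤ) + 1 := by
        rw [abs_of_nonpos (by push_cast; omega)]; push_cast; ring
      have h2 : |((p - 1 : ℕ) : ℤ) - (l.val : ℤ)| = (p : ℤ) - 1 - (l.val : ℤ) := by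
        have := ZMod.val_lt l
        rw [Nat.cast_sub hp.le, abs_of_nonneg (by push_cast; omega)]; push_cast; ring
      rw [h1, h2]
      push_cast
      rw [ZMod.natCast_zmod_val]
      simp only [CharP.cast_eq_zero]
      ring
  · by_cases hl : l = -1
    · subst hl
      have hne' : ¬ (i + 1 = (-1 : ZMod p) + 1) := fun h => hi (add_right_cancel h)
      rw [if_neg hi, if_neg hne', if_neg hi, if_pos rfl, hval i hi, hvl, neg_add_cancel,
        ZMod.val_zero]
      have h1 : |((i.val + 1 : ℕ) : ℤ) - ((0 : ℕ) : ℤ)| = (i.val : ℤ) + 1 := by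
        rw [abs_of_nonneg (by push_cast; omega)]; push_cast; ring
      have h2 : |(i.val : ℤ) - ((p - 1 : ℕ) : ℤ)| = (p : ℤ) - 1 - (i.val : ℤ) := by
        have := ZMod.val_lt i
        rw [Nat.cast_sub hp.le, abs_of_nonpos (by push_cast; omega)]; push_cast; ring
      rw [h1, h2]
      push_cast
      rw [ZMod.natCast_zmod_val]
      simp only [CharP.cast_eq_zero]
      ring
    · rw [if_neg hi, if_neg hl, hval i hi, hval l hl]
      have h1 : ((i.val + 1 : ℕ) : ℤ) - ((l.val + 1 : ℕ) : ℤ) = (i.val : ℤ) - (l.val : ℤ) := by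
        push_cast; ring
      have h2 : (i + 1 = l + 1) ↔ (i = l) := add_left_inj 1
      rw [h1]
      simp only [h2]
      ring

/-- the weight of a permutation modulo `p`. -/
def wp {p : ℕ} [NeZero p] (t : ℤ) (σ : Equiv.Perm (ZMod p)) : ZMod p :=
  ∏ i, ((wt t (σ i) i : ℤ) : ZMod p)

theorem wp_cj_one {p : ℕ} [Fact p.Prime] (t : ℤ) (σ : Equiv.Perm (ZMod p)) :
    wp t (cj 1 σ) = wp t σ := by
  unfold wp
  rw [← Equiv.prod_comp (Equiv.addRight (1 : ZMod p))
    (fun i => ((wt t ((cj 1 σ) i) i : ℤ) : ZMod p))]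
  simp only [cj_apply, Equiv.coe_addRight, add_sub_cancel_right, wt_shift]
  rw [Finset.prod_mul_distrib, Finset.prod_mul_distrib]
  have h1 : (∏ i : ZMod p, (if σ i = -1 then (-1 : ZMod p) else 1)) = -1 := by
    rw [Equiv.prod_comp σ (fun i : ZMod p => if i = -1 then (-1 : ZMod p) else 1)]
    rw [Finset.prod_ite_eq' ]
    simp
  have h2 : (∏ i : ZMod p, (if i = -1 then (-1 : ZMod p) else 1)) = -1 := by
    rw [Finset.prod_ite_eq']
    simp
  rw [h1, h2]
  ring

theorem wp_cj {p : ℕ} [Fact p.Prime] (t : ℤ) (s : ZMod p) (σ : Equiv.Perm (ZMod p)) :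
    wp t (cj s σ) = wp t σ := by
  have : ∀ (k : ℕ), wp t (cj (k : ZMod p) σ) = wp t σ := by
    intro k
    induction k with
    | zero => simp [cj_zero]
    | succ k ih =>
      rw [Nat.cast_succ, add_comm, cj_add, wp_cj_one, ih]
  have h2 := this s.val
  rwa [ZMod.natCast_zmod_val] at h2

/-- the weight of a shift. -/
theorem wp_shift {p : ℕ} [Fact p.Prime] (hp2 : p ≠ 2) (t : ℤ) (a : ZMod p) :
    wp t (Equiv.addRight a) = if a = 0 then ((t : ℤ) : ZMod p) else (-1) ^ a.val * a := by
  have hpp : p.Prime := Fact.out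
  have hp : 1 < p := hpp.one_lt
  have hodd : Odd p := hpp.odd_of_ne_two hp2
  unfold wp
  simp only [Equiv.coe_addRight]
  split_ifs with ha
  · subst ha
    simp only [add_zero, wt, sub_self, abs_zero, if_true, zero_add]
    rw [Finset.prod_const, Finset.card_univ, ZMod.card, ZMod.pow_card]
  · have ha' : 0 < a.val := Nat.pos_of_ne_zero (fun h => ha ((ZMod.val_eq_zero a).mp h))
    have halt : a.val < p := ZMod.val_lt a
    -- the entry at `(i + a, i)`
    have hent : ∀ i : ZMod p, ((wt t (i + a) i : ℤ) : ZMod p) =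
        if i.val + a.val < p then a else -a := by
      intro i
      have hne : ¬ (i + a = i) := fun h => ha (by simpa using h)
      unfold wt
      rw [if_neg hne, add_zero]
      have hilt := ZMod.val_lt i
      split_ifs with h
      · have h1 : (i + a).val = i.val + a.val := ZMod.val_add_of_lt h
        rw [h1, abs_of_nonneg (by push_cast; omega)]
        push_cast
        rw [ZMod.natCast_zmod_val, ZMod.natCast_zmod_val]
        ring
      · have h1 : (i + a).val = i.val + a.val - p := by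
          rw [ZMod.val_add, Nat.mod_eq_sub_mod (by omega), Nat.mod_eq_of_lt (by omega)]
        rw [h1, abs_of_nonpos (by omega)]
        rw [Nat.cast_sub (by omega)]
        push_cast
        rw [ZMod.natCast_zmod_val, ZMod.natCast_zmod_val]
        simp only [CharP.cast_eq_zero]
        ring
    simp only [hent]
    have h3 : ∀ i : ZMod p, (if i.val + a.val < p then a else -a) =
        (if i.val + a.val < p then 1 else -1) * a := by
      intro i; split_ifs <;> ring
    simp only [h3]
    rw [Finset.prod_mul_distrib, Finset.prod_const, Finset.card_univ, ZMod.card, ZMod.pow_card]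
    congr 1
    -- number of wrap-arounds
    rw [Finset.prod_ite, Finset.prod_const_one, one_mul, Finset.prod_const]
    congr 1
    have h4 : (Finset.univ.filter (fun i : ZMod p => ¬ (i.val + a.val < p))) =
        (Finset.univ.filter (fun i : ZMod p => p - a.val ≤ i.val)) := by
      ext i
      simp only [Finset.mem_filter, Finset.mem_univ, true_and]
      omega
    rw [h4]
    have h5 : (Finset.univ.filter (fun i : ZMod p => p - a.val ≤ i.val)).card =
        (Finset.Ico (p - a.val) p).card := by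
      refine Finset.card_bij (fun i _ => i.val) ?_ ?_ ?_
      · intro i hi
        simp only [Finset.mem_filter, Finset.mem_univ, true_and] at hi
        exact Finset.mem_Ico.mpr ⟨hi, ZMod.val_lt i⟩
      · intro i _ j _ hij
        exact ZMod.val_injective p hij
      · intro b hb
        rw [Finset.mem_Ico] at hb
        refine ⟨(b : ZMod p), ?_, ?_⟩
        · simp only [Finset.mem_filter, Finset.mem_univ, true_and]
          rw [ZMod.val_natCast, Nat.mod_eq_of_lt hb.2]
          exact hb.1
        · rw [ZMod.val_natCast, Nat.mod_eq_of_lt hb.2]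
    rw [h5, Nat.card_Ico]
    omega

theorem sum_shift {p : ℕ} [Fact p.Prime] (hp2 : p ≠ 2) (t : ℤ) :
    2 * (∑ a : ZMod p, wp t (Equiv.addRight a)) = 2 * ((t : ℤ) : ZMod p) - 1 := by
  have hpp : p.Prime := Fact.out
  have hodd : Odd p := hpp.odd_of_ne_two hp2
  obtain ⟨s, hs⟩ := hodd
  simp only [wp_shift hp2]
  have h1 : ∀ a : ZMod p, (if a = 0 then ((t : ℤ) : ZMod p) else (-1) ^ a.val * a) =
      (if a = 0 then ((t : ℤ) : ZMod p) else 0) + (-1) ^ a.val * a := by
    intro a
    split_ifs with h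
    · simp [h]
    · simp
  simp only [h1]
  rw [Finset.sum_add_distrib, Finset.sum_ite_eq' Finset.univ (0 : ZMod p)]
  simp only [Finset.mem_univ, if_true]
  have h2 : (∑ a : ZMod p, (-1 : ZMod p) ^ a.val * a) = (s : ZMod p) := by
    have h3 : (∑ a : ZMod p, (-1 : ZMod p) ^ a.val * a) =
        ∑ k ∈ range p, (-1 : ZMod p) ^ k * (k : ZMod p) := by
      refine Finset.sum_bij (fun a _ => a.val) ?_ ?_ ?_ ?_
      · intro a _
        exact Finset.mem_range.mpr (ZMod.val_lt a)
      · intro a _ b _ hab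
        exact ZMod.val_injective p hab
      · intro b hb
        refine ⟨(b : ZMod p), Finset.mem_univ _, ?_⟩
        rw [ZMod.val_natCast, Nat.mod_eq_of_lt (Finset.mem_range.mp hb)]
      · intro a _
        rw [ZMod.natCast_zmod_val]
    have h4 := congrArg (fun z : ℤ => (z : ZMod p)) (alt_id s)
    rw [h3]
    push_cast at h4
    rw [← h4, ← hs]
  rw [h2]
  have h5 : ((2 * s + 1 : ℕ) : ZMod p) = 0 := by rw [← hs]; simp
  push_cast at h5
  linear_combination h5

/-- **The permanent of `|j - k| + t δ_{jk}` modulo an odd prime `p`.** -/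
theorem per_abs {p : ℕ} [Fact p.Prime] (hp2 : p ≠ 2) (t : ℤ) :
    (p : ℤ) ∣ 2 * (Matrix.of (fun i l : ZMod p => wt t i l)).permanent - (2 * t - 1) := by
  rw [← ZMod.intCast_zmod_eq_zero_iff_dvd]
  have h1 : (((Matrix.of (fun i l : ZMod p => wt t i l)).permanent : ℤ) : ZMod p) =
      ∑ σ : Equiv.Perm (ZMod p), wp t σ := by
    unfold Matrix.permanent wp
    push_cast
    rfl
  rw [Int.cast_sub, Int.cast_mul, h1, sum_perm_inv (wp t) (wp_cj t)]
  push_cast
  rw [sum_shift hp2 t]
  ring

/-- the same over `Fin p`. -/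
theorem per_abs_fin (p : ℕ) (hp : p.Prime) (hp2 : p ≠ 2) (t : ℤ) :
    (p : ℤ) ∣ 2 * (Matrix.of (fun j k : Fin p =>
      |(((j : ℕ) : ℤ) + 1) - (((k : ℕ) : ℤ) + 1)| + if j = k then t else 0)).permanent -
        (2 * t - 1) := by
  haveI : Fact p.Prime := ⟨hp⟩
  have h := per_abs (p := p) hp2 t
  obtain ⟨n, rfl⟩ : ∃ n, p = n + 1 := ⟨p - 1, by have := hp.pos; omega⟩
  have h2 : (Matrix.of (fun j k : Fin (n + 1) =>
      |(((j : ℕ) : ℤ) + 1) - (((k : ℕ) : ℤ) + 1)| + if j = k then t else 0)) =
      (Matrix.of (fun i l : ZMod (n + 1) => wt t i l) : Matrix (ZMod (n + 1)) (ZMod (n + 1)) ℤ) := by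
    apply Matrix.ext
    intro j k
    show |(((j : ℕ) : ℤ) + 1) - (((k : ℕ) : ℤ) + 1)| + (if j = k then t else 0) =
      |((j : ℕ) : ℤ) - ((k : ℕ) : ℤ)| + (if j = k then t else 0)
    rw [add_sub_add_right_eq_sub]
  rw [h2]
  exact h

end Pool.Agent.Q68.Perm
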