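import Mathlib

set_option autoImplicit false

/-!
# Permanents of sign matrices of Ferrers shape

`FM m b` is the `m × m` matrix with entries `±1` whose `i`-th row starts with `b i` entries `-1`.
For `b` monotone with `b k ≤ k + 1` and for every odd `K`,
`per (FM m b) ≡ (-2)^m ∑_{x < K} (-1)^x ∏_k (x + b k - k)  (mod K)`.
-/

open Finset

namespace Pool.Agent.Q68.Perm

/-- expansion of a permanent along the first column. -/
theorem permanent_succ_column_zero {R : Type*} [CommRing R] {n : ℕ}
    (A : Matrix (Fin (n + 1)) (Fin (n + 1)) R) :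
    A.permanent = ∑ i : Fin (n + 1), A i 0 * (A.submatrix i.succAbove Fin.succ).permanent := by
  unfold Matrix.permanent
  rw [Finset.univ_perm_fin_succ, ← Finset.univ_product_univ]
  simp only [Finset.sum_map, Equiv.toEmbedding_apply, Finset.sum_product, Matrix.submatrix,
    Matrix.of_apply]
  refine Finset.sum_congr rfl fun i _ => Fin.cases ?_ (fun i => ?_) i
  · simp only [Fin.prod_univ_succ, Finset.mul_sum,
      Equiv.Perm.decomposeFin_symm_apply_zero, Equiv.swap_self, Equiv.refl_apply,
      Equiv.Perm.decomposeFin_symm_apply_succ, Fin.succAbove_zero]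
  · rw [Finset.mul_sum]
    have hbij := (Group.mulLeft_bijective (i.cycleRange)).sum_comp
      (fun τ : Equiv.Perm (Fin n) => A i.succ 0 * ∏ j, A (i.succ.succAbove (τ j)) j.succ)
    rw [← hbij]
    refine Finset.sum_congr rfl fun σ _ => ?_
    simp only [Fin.prod_univ_succ, Equiv.Perm.coe_mul, Function.comp_apply,
      Fin.succAbove_cycleRange, Equiv.Perm.decomposeFin_symm_apply_zero,
      Equiv.Perm.decomposeFin_symm_apply_succ]

/-- the sign matrix whose `i`-th row starts with `b i` entries `-1`. -/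
def FM (m : ℕ) (b : Fin m → ℕ) : Matrix (Fin m) (Fin m) ℤ :=
  Matrix.of fun i j => if (j : ℕ) < b i then -1 else 1

/-- removing the first column and the `i`-th row of a Ferrers sign matrix. -/
theorem FM_submatrix (m : ℕ) (b : Fin (m + 1) → ℕ) (i : Fin (m + 1)) :
    (FM (m + 1) b).submatrix i.succAbove Fin.succ = FM m (fun k => b (i.succAbove k) - 1) := by
  ext k j
  simp only [FM, Matrix.submatrix_apply, Matrix.of_apply, Fin.val_succ]
  have : ((j : ℕ) + 1 < b (i.succAbove k)) ↔ ((j : ℕ) < b (i.succAbove k) - 1) := by omega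
  simp only [this]

/-- the telescoping identity behind the recursion. -/
theorem tele (m : ℕ) (A : Fin m → ℤ) (z : Fin m → Prop) [DecidablePred z]
    (hz : ∀ i j, i ≤ j → z j → z i) :
    (∑ i, (if z i then 1 else -1) *
      (∏ k, if k < i then A k else if k = i then 1 else A k + 1)) =
    (∏ k, A k) + (∏ k, (A k + 1)) - 2 * (∏ k, if z k then A k else A k + 1) := by
  induction m with
  | zero => simp
  | succ m ih =>
    have ih' := ih (fun k => A k.castSucc) (fun k => z k.castSucc)
      (fun i j hij hj => hz _ _ (by simpa using hij) hj)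
    rw [Fin.sum_univ_castSucc]
    have h1 : ∀ i : Fin m, (∏ k : Fin (m + 1), if k < i.castSucc then A k else
        if k = i.castSucc then 1 else A k + 1) =
        (∏ k : Fin m, if k < i then A k.castSucc else if k = i then 1 else A k.castSucc + 1) *
          (A (Fin.last m) + 1) := by
      intro i
      rw [Fin.prod_univ_castSucc]
      congr 1
      · refine Finset.prod_congr rfl fun k _ => ?_
        simp [Fin.castSucc_lt_castSucc_iff, Fin.castSucc_inj]
      · have h2 : ¬ (Fin.last m < i.castSucc) := by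
          simp [Fin.lt_def]
        have h3 : ¬ (Fin.last m = i.castSucc) := by
          simp [Fin.ext_iff]; omega
        simp [h2, h3]
    have h4 : (∏ k : Fin (m + 1), if k < Fin.last m then A k else
        if k = Fin.last m then 1 else A k + 1) = ∏ k : Fin m, A k.castSucc := by
      rw [Fin.prod_univ_castSucc]
      simp [Fin.castSucc_lt_last]
    rw [h4]
    simp only [h1]
    have h5 : (∑ i : Fin m, (if z i.castSucc then (1 : ℤ) else -1) *
        ((∏ k : Fin m, if k < i then A k.castSucc else if k = i then 1 else A k.castSucc + 1) *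
          (A (Fin.last m) + 1))) = (A (Fin.last m) + 1) * ((∏ k : Fin m, A k.castSucc) +
          (∏ k : Fin m, (A k.castSucc + 1)) -
          2 * (∏ k : Fin m, if z k.castSucc then A k.castSucc else A k.castSucc + 1)) := by
      rw [← ih', Finset.mul_sum]
      refine Finset.sum_congr rfl fun i _ => ?_
      ring
    rw [h5, Fin.prod_univ_castSucc, Fin.prod_univ_castSucc (fun k => A k + 1),
      Fin.prod_univ_castSucc (fun k => if z k then A k else A k + 1)]
    by_cases hl : z (Fin.last m)
    · have h6 : (∏ k : Fin m, if z k.castSucc then A k.castSucc else A k.castSucc + 1) =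
          ∏ k : Fin m, A k.castSucc := by
        refine Finset.prod_congr rfl fun k _ => ?_
        rw [if_pos (hz _ _ (Fin.le_last _) hl)]
      rw [h6]
      simp only [hl, if_true]
      ring
    · simp only [hl, if_false]
      ring

/-- the alternating sum of `H x + H (x+1)` telescopes. -/
theorem alt_tele (H : ℕ → ℤ) (K : ℕ) :
    ∑ x ∈ range K, (-1) ^ x * (H x + H (x + 1)) = H 0 - (-1) ^ K * H K := by
  induction K with
  | zero => simp
  | succ K ih =>
    rw [Finset.sum_range_succ, ih]
    ring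

theorem alt_ones (K : ℕ) (hK : Odd K) : ∑ x ∈ range K, ((-1 : ℤ)) ^ x = 1 := by
  obtain ⟨s, rfl⟩ := hK
  induction s with
  | zero => simp
  | succ s ih =>
    rw [show 2 * (s + 1) + 1 = (2 * s + 1) + 1 + 1 by ring, Finset.sum_range_succ,
      Finset.sum_range_succ, ih]
    have : (-1 : ℤ) ^ (2 * s + 1) = -1 := Odd.neg_one_pow ⟨s, rfl⟩
    have h2 : (-1 : ℤ) ^ (2 * s + 1 + 1) = 1 := Even.neg_one_pow ⟨s + 1, by ring⟩
    rw [this, h2]; ring

/-- **Permanent of a Ferrers sign matrix modulo an odd number.** -/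
theorem per_FM (K : ℕ) (hK : Odd K) : ∀ (m : ℕ) (b : Fin m → ℕ), Monotone b →
    (∀ k : Fin m, b k ≤ (k : ℕ) + 1) →
    ((K : ℤ) ∣ (FM m b).permanent - (-2) ^ m *
      ∑ x ∈ range K, (-1) ^ x * ∏ k : Fin m, ((x : ℤ) + (b k : ℤ) - ((k : ℕ) : ℤ))) := by
  intro m
  induction m with
  | zero =>
    intro b _ _
    simp [Matrix.permanent_isEmpty, alt_ones K hK]
  | succ m ih =>
    intro b hb hb1
    rw [permanent_succ_column_zero]
    -- the induction hypothesis for each minor
    have hmin : ∀ i : Fin (m + 1), (K : ℤ) ∣ (FM m (fun k => b (i.succAbove k) - 1)).permanent -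
        (-2) ^ m * ∑ x ∈ range K, (-1) ^ x *
          ∏ k : Fin m, ((x : ℤ) + ((b (i.succAbove k) - 1 : ℕ) : ℤ) - ((k : ℕ) : ℤ)) := by
      intro i
      refine ih (fun k => b (i.succAbove k) - 1) ?_ ?_
      · intro k l hkl
        have := hb ((Fin.strictMono_succAbove i).monotone hkl)
        exact Nat.sub_le_sub_right this 1
      · intro k
        have h1 := hb1 (i.succAbove k)
        have h2 : ((i.succAbove k : Fin (m + 1)) : ℕ) ≤ (k : ℕ) + 1 := by
          unfold Fin.succAbove
          split_ifs <;> simp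
        omega
    set H : ℕ → ℤ := fun x => ∏ k : Fin (m + 1), ((x : ℤ) + ((b k - 1 : ℕ) : ℤ) - ((k : ℕ) : ℤ))
      with hH
    have hH0 : H 0 = 0 := by
      rw [hH]
      dsimp only
      refine Finset.prod_eq_zero (Finset.mem_univ (0 : Fin (m + 1))) ?_
      have := hb1 0
      simp only [Fin.val_zero, zero_add] at this
      have h0 : b 0 - 1 = 0 := by omega
      simp [h0]
    have hHK : (K : ℤ) ∣ H K := by
      rw [hH]
      dsimp only
      have h0 := hb1 0
      simp only [Fin.val_zero, zero_add] at h0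
      have h0' : b 0 - 1 = 0 := by omega
      refine dvd_trans ?_ (Finset.dvd_prod_of_mem _ (Finset.mem_univ (0 : Fin (m + 1))))
      simp [h0']
    -- the pointwise identity
    have key : ∀ x : ℕ, (∑ i : Fin (m + 1), (FM (m + 1) b) i 0 *
        ∏ k : Fin m, ((x : ℤ) + ((b (i.succAbove k) - 1 : ℕ) : ℤ) - ((k : ℕ) : ℤ))) =
        (H x + H (x + 1)) -
          2 * ∏ k : Fin (m + 1), ((x : ℤ) + (b k : ℤ) - ((k : ℕ) : ℤ)) := by
      intro x
      have ht := tele (m + 1) (fun k => (x : ℤ) + ((b k - 1 : ℕ) : ℤ) - ((k : ℕ) : ℤ))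
        (fun k => b k = 0) (fun i j hij hj => by
          have := hb hij
          omega)
      have hA : (∏ k : Fin (m + 1), ((x : ℤ) + ((b k - 1 : ℕ) : ℤ) - ((k : ℕ) : ℤ))) = H x := rfl
      have hB : (∏ k : Fin (m + 1), ((x : ℤ) + ((b k - 1 : ℕ) : ℤ) - ((k : ℕ) : ℤ) + 1)) =
          H (x + 1) := by
        rw [hH]
        refine Finset.prod_congr rfl fun k _ => ?_
        push_cast
        ring
      have hF : (∏ k : Fin (m + 1), if b k = 0 then
          ((x : ℤ) + ((b k - 1 : ℕ) : ℤ) - ((k : ℕ) : ℤ)) else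
          ((x : ℤ) + ((b k - 1 : ℕ) : ℤ) - ((k : ℕ) : ℤ) + 1)) =
          ∏ k : Fin (m + 1), ((x : ℤ) + (b k : ℤ) - ((k : ℕ) : ℤ)) := by
        refine Finset.prod_congr rfl fun k _ => ?_
        split_ifs with h
        · simp [h]
        · have : ((b k - 1 : ℕ) : ℤ) = (b k : ℤ) - 1 := by
            rw [Nat.cast_sub (by omega)]; simp
          rw [this]; ring
      rw [← hA, ← hB, ← hF]
      rw [← ht]
      refine Finset.sum_congr rfl fun i _ => ?_
      congr 1
      · simp only [FM, Matrix.of_apply, Fin.val_zero]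
        by_cases h : b i = 0
        · simp [h]
        · simp [h, Nat.pos_of_ne_zero h]
      · rw [Fin.prod_univ_succAbove _ i]
        simp only [lt_irrefl, if_false, if_true, one_mul]
        refine Finset.prod_congr rfl fun k _ => ?_
        have hne : i.succAbove k ≠ i := Fin.succAbove_ne i k
        by_cases hk : k.castSucc < i
        · have hs : i.succAbove k = k.castSucc := Fin.succAbove_of_castSucc_lt i k hk
          rw [hs, if_pos hk]
          simp
        · have hs : i.succAbove k = k.succ := Fin.succAbove_of_le_castSucc i k (not_lt.mp hk)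
          have hlt : ¬ (i.succAbove k < i) := by
            rw [hs]
            have := not_lt.mp hk
            simp only [Fin.lt_def, Fin.le_def, Fin.val_castSucc, Fin.val_succ] at this ⊢
            omega
          rw [if_neg hlt, if_neg hne, hs]
          simp only [Fin.val_succ]
          push_cast
          ring
    -- assemble
    have hsum : (K : ℤ) ∣ (∑ i : Fin (m + 1), (FM (m + 1) b) i 0 *
        ((FM (m + 1) b).submatrix i.succAbove Fin.succ).permanent) -
        (-2) ^ m * ∑ x ∈ range K, (-1) ^ x * (∑ i : Fin (m + 1), (FM (m + 1) b) i 0 *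
          ∏ k : Fin m, ((x : ℤ) + ((b (i.succAbove k) - 1 : ℕ) : ℤ) - ((k : ℕ) : ℤ))) := by
      have : (∑ i : Fin (m + 1), (FM (m + 1) b) i 0 *
        ((FM (m + 1) b).submatrix i.succAbove Fin.succ).permanent) -
        (-2) ^ m * ∑ x ∈ range K, (-1) ^ x * (∑ i : Fin (m + 1), (FM (m + 1) b) i 0 *
          ∏ k : Fin m, ((x : ℤ) + ((b (i.succAbove k) - 1 : ℕ) : ℤ) - ((k : ℕ) : ℤ))) =
        ∑ i : Fin (m + 1), (FM (m + 1) b) i 0 *
          ((FM m (fun k => b (i.succAbove k) - 1)).permanent -
        (-2) ^ m * ∑ x ∈ range K, (-1) ^ x *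
          ∏ k : Fin m, ((x : ℤ) + ((b (i.succAbove k) - 1 : ℕ) : ℤ) - ((k : ℕ) : ℤ))) := by
        simp only [mul_sub, Finset.sum_sub_distrib, FM_submatrix]
        congr 1
        simp only [Finset.mul_sum]
        rw [Finset.sum_comm]
        refine Finset.sum_congr rfl fun i _ => Finset.sum_congr rfl fun x _ => ?_
        ring
      rw [this]
      exact Finset.dvd_sum fun i _ => Dvd.dvd.mul_left (hmin i) _
    have hfin : (-2 : ℤ) ^ m * ∑ x ∈ range K, (-1) ^ x * (∑ i : Fin (m + 1), (FM (m + 1) b) i 0 *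
          ∏ k : Fin m, ((x : ℤ) + ((b (i.succAbove k) - 1 : ℕ) : ℤ) - ((k : ℕ) : ℤ))) =
        (-2) ^ m * H K + (-2) ^ (m + 1) *
          ∑ x ∈ range K, (-1) ^ x * ∏ k : Fin (m + 1), ((x : ℤ) + (b k : ℤ) - ((k : ℕ) : ℤ)) := by
      simp only [key]
      have h1 : ∑ x ∈ range K, ((-1 : ℤ)) ^ x * ((H x + H (x + 1)) -
          2 * ∏ k : Fin (m + 1), ((x : ℤ) + (b k : ℤ) - ((k : ℕ) : ℤ))) =
          (∑ x ∈ range K, (-1) ^ x * (H x + H (x + 1))) - 2 *
          ∑ x ∈ range K, (-1) ^ x * ∏ k : Fin (m + 1), ((x : ℤ) + (b k : ℤ) - ((k : ℕ) : ℤ)) := by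
        rw [Finset.mul_sum, ← Finset.sum_sub_distrib]
        refine Finset.sum_congr rfl fun x _ => ?_
        ring
      rw [h1, alt_tele, hH0, Odd.neg_one_pow hK]
      ring
    rw [hfin] at hsum
    have h2 : (K : ℤ) ∣ (-2) ^ m * H K := Dvd.dvd.mul_left hHK _
    have h3 := dvd_add hsum h2
    have h4 : ∀ a c d : ℤ, a - (c + d) + c = a - d := fun a c d => by ring
    rw [h4] at h3
    exact h3

end Pool.Agent.Q68.Perm
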