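import Mathlib

set_option autoImplicit false

/-!
# Sums over free orbits, and permutations commuting with a shift
-/

open Finset

namespace Pool.Agent.Q68.Perm

/-- If the sum of `h` over every free orbit vanishes then the sum of `h` over all free points
vanishes. -/
theorem orbit_sum {G X R : Type*} [AddCommGroup G] [Fintype G] [Fintype X] [DecidableEq X]
    [AddCommGroup R] (act : G → X → X)
    (h0 : ∀ x, act 0 x = x) (hadd : ∀ a b x, act (a + b) x = act a (act b x)) (h : X → R)
    (hh : ∀ x, (∀ a, act a x = x → a = 0) → ∑ a, h (act a x) = 0)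
    (F : Finset X) (hF : ∀ x, x ∈ F ↔ (∀ a, act a x = x → a = 0)) :
    ∑ x ∈ F, h x = 0 := by
  have key : ∀ n : ℕ, ∀ S : Finset X, S.card = n → (∀ x ∈ S, ∀ a, act a x = x → a = 0) →
      (∀ x ∈ S, ∀ a, act a x ∈ S) → ∑ x ∈ S, h x = 0 := by
    intro n
    induction n using Nat.strong_induction_on with
    | _ n ih =>
      intro S hS hfree hst
      rcases S.eq_empty_or_nonempty with rfl | ⟨x0, hx0⟩
      · simp
      · have hinj : Function.Injective (fun a => act a x0) := by
          intro a b hab
          have h1 : act (-b + a) x0 = x0 := by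
            rw [hadd]
            dsimp only at hab
            rw [hab, ← hadd, neg_add_cancel, h0]
          have := hfree x0 hx0 _ h1
          have h2 : a = b := by
            rw [neg_add_eq_zero] at this
            exact this.symm
          exact h2
        set O : Finset X := Finset.univ.image (fun a => act a x0) with hO
        have hOS : O ⊆ S := by
          intro y hy
          rw [hO, Finset.mem_image] at hy
          obtain ⟨a, -, rfl⟩ := hy
          exact hst x0 hx0 a
        have hx0O : x0 ∈ O := by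
          rw [hO, Finset.mem_image]
          exact ⟨0, Finset.mem_univ _, h0 x0⟩
        rw [← Finset.sum_sdiff hOS]
        have h1 : ∑ x ∈ O, h x = 0 := by
          rw [hO, Finset.sum_image (fun a _ b _ hab => hinj hab)]
          exact hh x0 (hfree x0 hx0)
        rw [h1, add_zero]
        refine ih (S \ O).card ?_ (S \ O) rfl ?_ ?_
        · rw [← hS]
          exact Finset.card_lt_card (Finset.sdiff_ssubset hOS ⟨x0, hx0O⟩)
        · intro x hx
          exact hfree x (Finset.mem_sdiff.mp hx).1
        · intro x hx a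
          rw [Finset.mem_sdiff] at hx ⊢
          refine ⟨hst x hx.1 a, fun hmem => hx.2 ?_⟩
          rw [hO, Finset.mem_image] at hmem ⊢
          obtain ⟨b, -, hb⟩ := hmem
          refine ⟨-a + b, Finset.mem_univ _, ?_⟩
          rw [hadd, hb, ← hadd, neg_add_cancel, h0]
  refine key _ F rfl (fun x hx => (hF x).mp hx) ?_
  intro x hx a
  rw [hF] at hx ⊢
  intro b hb
  apply hx
  have : act (-a) (act b (act a x)) = act b x := by
    rw [← hadd, ← hadd]
    congr 1
    abel
  rw [← this, hb, ← hadd, neg_add_cancel, h0]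

/-- conjugation of a permutation of `ZMod p` by a shift. -/
def cj {p : ℕ} (s : ZMod p) (σ : Equiv.Perm (ZMod p)) : Equiv.Perm (ZMod p) :=
  (Equiv.addRight (-s)).trans (σ.trans (Equiv.addRight s))

@[simp] theorem cj_apply {p : ℕ} (s : ZMod p) (σ : Equiv.Perm (ZMod p)) (i : ZMod p) :
    cj s σ i = σ (i - s) + s := by
  simp [cj, sub_eq_add_neg]

theorem cj_zero {p : ℕ} (σ : Equiv.Perm (ZMod p)) : cj 0 σ = σ := by
  ext i; simp

theorem cj_add {p : ℕ} (a b : ZMod p) (σ : Equiv.Perm (ZMod p)) :
    cj (a + b) σ = cj a (cj b σ) := by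
  apply Equiv.ext
  intro i
  simp only [cj_apply]
  rw [show i - (a + b) = i - a - b by ring]
  ring

/-- a permutation fixed by a nonzero conjugation is a shift. -/
theorem cj_fixed {p : ℕ} [Fact p.Prime] (a : ZMod p) (ha : a ≠ 0) (σ : Equiv.Perm (ZMod p))
    (h : cj a σ = σ) : σ = Equiv.addRight (σ 0) := by
  have h1 : ∀ i, σ (i + a) = σ i + a := by
    intro i
    have := congrArg (fun τ => τ (i + a)) h
    simp only [cj_apply, add_sub_cancel_right] at this
    exact this.symm
  have h2 : ∀ (k : ℕ) (i : ZMod p), σ (i + k * a) = σ i + k * a := by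
    intro k
    induction k with
    | zero => intro i; simp
    | succ k ih =>
      intro i
      have : i + ((k + 1 : ℕ) : ZMod p) * a = (i + k * a) + a := by push_cast; ring
      rw [this, h1, ih]
      push_cast; ring
  apply Equiv.ext
  intro t
  have h3 := h2 (t / a).val 0
  rw [ZMod.natCast_zmod_val, div_mul_cancel₀ _ ha, zero_add] at h3
  rw [h3]
  simp [add_comm]

/-- `σ` is not fixed by any nonzero conjugation. -/
def Fr {p : ℕ} (σ : Equiv.Perm (ZMod p)) : Prop := ∀ a, cj a σ = σ → a = 0

theorem not_fr_iff {p : ℕ} [Fact p.Prime] (σ : Equiv.Perm (ZMod p)) :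
    ¬ Fr σ ↔ ∃ a : ZMod p, σ = Equiv.addRight a := by
  constructor
  · intro h
    unfold Fr at h
    push Not at h
    obtain ⟨a, ha, ha0⟩ := h
    exact ⟨σ 0, cj_fixed a ha0 σ ha⟩
  · rintro ⟨a, ha⟩ hcon
    have := hcon 1 (by
      apply Equiv.ext
      intro i
      rw [ha]
      simp only [cj_apply, Equiv.coe_addRight]
      ring)
    exact one_ne_zero this

theorem addRight_inj {p : ℕ} (a b : ZMod p)
    (h : (Equiv.addRight a : Equiv.Perm (ZMod p)) = Equiv.addRight b) : a = b := by
  have := congrArg (fun τ : Equiv.Perm (ZMod p) => τ 0) h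
  simpa using this


/-- splitting a sum over all permutations into shifts and the rest. -/
theorem sum_perm_split {p : ℕ} [Fact p.Prime] {R : Type*} [AddCommGroup R]
    (f : Equiv.Perm (ZMod p) → R)
    (hf : ∀ σ, Fr σ → ∑ a, f (cj a σ) = 0) :
    ∑ σ, f σ = ∑ a : ZMod p, f (Equiv.addRight a) := by
  classical
  have h1 : ∑ σ ∈ Finset.univ.filter (fun σ : Equiv.Perm (ZMod p) => Fr σ), f σ = 0 := by
    refine orbit_sum (G := ZMod p) (X := Equiv.Perm (ZMod p)) (R := R) cj ?_ ?_ f ?_ _ ?_
    · intro x
      exact cj_zero x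
    · intro a b x
      exact cj_add a b x
    · intro σ hσ
      exact hf σ hσ
    · intro x
      rw [Finset.mem_filter]
      exact ⟨fun h => h.2, fun h => ⟨Finset.mem_univ _, h⟩⟩
  rw [← Finset.sum_filter_add_sum_filter_not Finset.univ
    (fun σ : Equiv.Perm (ZMod p) => Fr σ), h1, zero_add]
  have h2 : Finset.univ.filter (fun σ : Equiv.Perm (ZMod p) => ¬ Fr σ) =
      Finset.univ.image (fun a : ZMod p => (Equiv.addRight a : Equiv.Perm (ZMod p))) := by
    ext σ
    rw [Finset.mem_filter, Finset.mem_image, not_fr_iff]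
    constructor
    · rintro ⟨-, a, ha⟩
      exact ⟨a, Finset.mem_univ _, ha.symm⟩
    · rintro ⟨a, -, ha⟩
      exact ⟨Finset.mem_univ _, a, ha.symm⟩
  rw [h2]
  exact Finset.sum_image (fun a _ b _ hab => addRight_inj a b hab)

/-- sums of functions invariant under the conjugations by shifts, in characteristic `p`:
only the shifts contribute. -/
theorem sum_perm_inv {p : ℕ} [Fact p.Prime] (f : Equiv.Perm (ZMod p) → ZMod p)
    (hf : ∀ s σ, f (cj s σ) = f σ) :
    ∑ σ, f σ = ∑ a : ZMod p, f (Equiv.addRight a) := by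
  refine sum_perm_split f (fun σ _ => ?_)
  simp only [hf]
  rw [Finset.sum_const, Finset.card_univ, ZMod.card]
  simp

end Pool.Agent.Q68.Perm
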