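import Pool.Agent.Q68.Perm.Orbit

set_option autoImplicit false

/-!
# The permanent of `j - k + δ_{jk}` modulo `p²`: reduction to the moved point count
-/

open Finset

namespace Pool.Agent.Q68.Perm

/-- the entry of the matrix. -/
def ez {p : ℕ} (l i : ZMod p) : ℤ := if l = i then 1 else (l.val : ℤ) - (i.val : ℤ)

/-- its part invariant under shifts. -/
def cz {p : ℕ} (d : ZMod p) : ℤ := if d = 0 then 1 else (d.val : ℤ)

/-- the wrap around indicator. -/
def wz {p : ℕ} (i d : ZMod p) : ℤ := if d ≠ 0 ∧ p ≤ i.val + d.val then 1 else 0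

theorem ez_eq {p : ℕ} [NeZero p] (l i : ZMod p) : ez l i = cz (l - i) - p * wz i (l - i) := by
  unfold ez cz wz
  by_cases h : l = i
  · subst h; simp
  · have h' : l - i ≠ 0 := sub_ne_zero.mpr h
    rw [if_neg h, if_neg h']
    have hl : l = i + (l - i) := by ring
    have h1 := ZMod.val_lt i
    have h2 := ZMod.val_lt (l - i)
    have h3 : (i + (l - i)).val = (i.val + (l - i).val) % p := ZMod.val_add _ _
    rw [← hl] at h3
    by_cases hw : p ≤ i.val + (l - i).val
    · rw [if_pos ⟨h', hw⟩, h3, Nat.mod_eq_sub_mod hw, Nat.mod_eq_of_lt (by omega)]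
      push_cast [hw]
      ring
    · rw [if_neg (by tauto), h3, Nat.mod_eq_of_lt (by omega)]
      push_cast
      ring

/-- the number of wrap-arounds. -/
theorem sum_wz {p : ℕ} [NeZero p] (d : ZMod p) :
    ∑ s : ZMod p, wz s d = if d = 0 then 0 else (d.val : ℤ) := by
  unfold wz
  by_cases h : d = 0
  · subst h; simp
  · rw [if_neg h]
    simp only [ne_eq, h, not_false_eq_true, true_and]
    rw [Finset.sum_boole]
    norm_cast
    have h5 : (Finset.univ.filter (fun i : ZMod p => p ≤ i.val + d.val)).card =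
        (Finset.Ico (p - d.val) p).card := by
      have hd := ZMod.val_lt d
      refine Finset.card_bij (fun i _ => i.val) ?_ ?_ ?_
      · intro i hi
        simp only [Finset.mem_filter, Finset.mem_univ, true_and] at hi
        exact Finset.mem_Ico.mpr ⟨by omega, ZMod.val_lt i⟩
      · intro i _ j _ hij
        exact ZMod.val_injective p hij
      · intro b hb
        rw [Finset.mem_Ico] at hb
        refine ⟨(b : ZMod p), ?_, ?_⟩
        · simp only [Finset.mem_filter, Finset.mem_univ, true_and]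
          rw [ZMod.val_natCast, Nat.mod_eq_of_lt hb.2]
          omega
        · rw [ZMod.val_natCast, Nat.mod_eq_of_lt hb.2]
    have hd := ZMod.val_lt d
    rw [h5, Nat.card_Ico]
    omega

theorem prod_pert {ι R : Type*} [CommRing R] [DecidableEq ι] (P : R) (hP : P * P = 0)
    (c w u : ι → R) (h : ∀ i, c i * u i = 1) (s : Finset ι) :
    ∏ i ∈ s, (c i - P * w i) = (∏ i ∈ s, c i) * (1 - P * ∑ i ∈ s, w i * u i) := by
  induction s using Finset.induction_on with
  | empty => simp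
  | insert a s ha ih =>
    rw [Finset.prod_insert ha, Finset.prod_insert ha, Finset.sum_insert ha, ih]
    have := h a
    linear_combination ((∏ i ∈ s, c i) * P * w a) * this +
      ((∏ i ∈ s, c i) * w a * (∑ i ∈ s, w i * u i)) * hP

/-- the inverse of `cz`. -/
noncomputable def uz {p : ℕ} (d : ZMod p) : ZMod (p ^ 2) := ((cz d : ℤ) : ZMod (p ^ 2))⁻¹

theorem cz_mul_uz {p : ℕ} [Fact p.Prime] (d : ZMod p) :
    ((cz d : ℤ) : ZMod (p ^ 2)) * uz d = 1 := by
  have hp : p.Prime := Fact.out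
  unfold uz cz
  split_ifs with h
  · simp
  · rw [Int.cast_natCast]
    apply ZMod.coe_mul_inv_eq_one
    apply Nat.Coprime.pow_right
    rw [Nat.coprime_comm]
    refine (Nat.Prime.coprime_iff_not_dvd hp).mpr (fun hd => ?_)
    have h1 : 0 < d.val := Nat.pos_of_ne_zero (fun h' => h ((ZMod.val_eq_zero d).mp h'))
    have := Nat.le_of_dvd h1 hd
    have := ZMod.val_lt d
    omega

theorem pp_zero {p : ℕ} : ((p : ℤ) : ZMod (p ^ 2)) * ((p : ℤ) : ZMod (p ^ 2)) = 0 := by
  rw [← Int.cast_mul]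
  rw [ZMod.intCast_zmod_eq_zero_iff_dvd]
  push_cast
  rw [sq]

/-- the weight of a permutation. -/
def fz {p : ℕ} [NeZero p] (σ : Equiv.Perm (ZMod p)) : ℤ := ∏ i, ez (σ i) i

/-- the invariant part of the weight. -/
def Cz {p : ℕ} [NeZero p] (σ : Equiv.Perm (ZMod p)) : ℤ := ∏ i, cz (σ i - i)

/-- the number of moved points. -/
def mv {p : ℕ} [NeZero p] (σ : Equiv.Perm (ZMod p)) : ℕ :=
  (Finset.univ.filter (fun i => σ i ≠ i)).card

theorem Cz_cj {p : ℕ} [NeZero p] (s : ZMod p) (σ : Equiv.Perm (ZMod p)) :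
    Cz (cj s σ) = Cz σ := by
  unfold Cz
  rw [← Equiv.prod_comp (Equiv.addRight s) (fun i => cz ((cj s σ) i - i))]
  refine Finset.prod_congr rfl (fun i _ => ?_)
  simp only [cj_apply, Equiv.coe_addRight, add_sub_cancel_right]
  congr 1
  ring

theorem mv_cj {p : ℕ} [NeZero p] (s : ZMod p) (σ : Equiv.Perm (ZMod p)) :
    mv (cj s σ) = mv σ := by
  unfold mv
  symm
  refine Finset.card_bij (fun i _ => i + s) ?_ ?_ ?_
  · intro i hi
    simp only [Finset.mem_filter, Finset.mem_univ, true_and, cj_apply, add_sub_cancel_right] at hi ⊢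
    intro h
    exact hi (add_right_cancel h)
  · intro i _ j _ hij
    exact add_right_cancel hij
  · intro b hb
    simp only [Finset.mem_filter, Finset.mem_univ, true_and, cj_apply] at hb
    refine ⟨b - s, ?_, by ring⟩
    simp only [Finset.mem_filter, Finset.mem_univ, true_and]
    intro h
    apply hb
    rw [h]
    ring

theorem fz_cj {p : ℕ} [Fact p.Prime] (s : ZMod p) (σ : Equiv.Perm (ZMod p)) :
    ((fz (cj s σ) : ℤ) : ZMod (p ^ 2)) = ((Cz σ : ℤ) : ZMod (p ^ 2)) *
      (1 - ((p : ℤ) : ZMod (p ^ 2)) *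
        ∑ i, ((wz (i + s) (σ i - i) : ℤ) : ZMod (p ^ 2)) * uz (σ i - i)) := by
  unfold fz Cz
  rw [← Equiv.prod_comp (Equiv.addRight s) (fun i => ez ((cj s σ) i) i)]
  rw [Int.cast_prod, Int.cast_prod]
  rw [← prod_pert ((p : ℤ) : ZMod (p ^ 2)) pp_zero
    (fun i => ((cz (σ i - i) : ℤ) : ZMod (p ^ 2)))
    (fun i => ((wz (i + s) (σ i - i) : ℤ) : ZMod (p ^ 2)))
    (fun i => uz (σ i - i)) (fun i => cz_mul_uz _) Finset.univ]
  refine Finset.prod_congr rfl (fun i _ => ?_)
  simp only [cj_apply, Equiv.coe_addRight, add_sub_cancel_right]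
  rw [ez_eq, show σ i + s - (i + s) = σ i - i by ring]
  push_cast
  ring

theorem sum_wz_uz {p : ℕ} [Fact p.Prime] (d : ZMod p) :
    (∑ s : ZMod p, ((wz s d : ℤ) : ZMod (p ^ 2))) * uz d = if d = 0 then 0 else 1 := by
  rw [← Int.cast_sum, sum_wz]
  split_ifs with h
  · simp
  · have := cz_mul_uz d
    unfold cz at this
    rwa [if_neg h] at this

theorem mv_cast {p : ℕ} [NeZero p] {R : Type*} [CommRing R] (σ : Equiv.Perm (ZMod p)) :
    ((mv σ : ℕ) : R) = ∑ i, if σ i - i = 0 then (0 : R) else 1 := by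
  unfold mv
  rw [Finset.card_filter]
  push_cast
  refine Finset.sum_congr rfl (fun i _ => ?_)
  by_cases h : σ i = i
  · simp [h]
  · simp [h, sub_eq_zero]

/-- The average over the conjugations by shifts. -/
theorem sum_fz_cj {p : ℕ} [Fact p.Prime] (σ : Equiv.Perm (ZMod p)) :
    ∑ s, ((fz (cj s σ) : ℤ) : ZMod (p ^ 2)) =
      ((p : ℤ) : ZMod (p ^ 2)) * ((1 - ((mv σ : ℕ) : ZMod (p ^ 2))) *
        ((Cz σ : ℤ) : ZMod (p ^ 2))) := by
  simp only [fz_cj]
  rw [← Finset.mul_sum, Finset.sum_sub_distrib, ← Finset.mul_sum, Finset.sum_comm]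
  have h1 : ∀ i : ZMod p, (∑ s : ZMod p, ((wz (i + s) (σ i - i) : ℤ) : ZMod (p ^ 2)) *
      uz (σ i - i)) = if σ i - i = 0 then 0 else 1 := by
    intro i
    rw [← sum_wz_uz, Finset.sum_mul]
    exact Equiv.sum_comp (Equiv.addLeft i)
      (fun s => ((wz s (σ i - i) : ℤ) : ZMod (p ^ 2)) * uz (σ i - i))
  simp only [h1]
  rw [← mv_cast, Finset.sum_const, Finset.card_univ, ZMod.card, nsmul_one]
  push_cast
  ring

theorem fz_shift {p : ℕ} [Fact p.Prime] (a : ZMod p) :
    ((fz (Equiv.addRight a) : ℤ) : ZMod (p ^ 2)) =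
      (1 - ((mv (Equiv.addRight a) : ℕ) : ZMod (p ^ 2))) *
        ((Cz (Equiv.addRight a) : ℤ) : ZMod (p ^ 2)) := by
  have h := fz_cj 0 (Equiv.addRight a)
  rw [cj_zero] at h
  rw [h]
  simp only [Equiv.coe_addRight, add_zero, add_sub_cancel_left]
  rw [← Finset.sum_mul, sum_wz_uz, mv_cast]
  simp only [Equiv.coe_addRight, add_sub_cancel_left]
  rw [Finset.sum_const, Finset.card_univ, ZMod.card]
  split_ifs with ha
  · simp
  · rw [nsmul_one]
    push_cast
    ring

/-- **First reduction.** -/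
theorem sum_fz {p : ℕ} [Fact p.Prime] :
    ∑ σ : Equiv.Perm (ZMod p), ((fz σ : ℤ) : ZMod (p ^ 2)) =
      ∑ σ : Equiv.Perm (ZMod p), (1 - ((mv σ : ℕ) : ZMod (p ^ 2))) *
        ((Cz σ : ℤ) : ZMod (p ^ 2)) := by
  rw [← sub_eq_zero, ← Finset.sum_sub_distrib]
  rw [sum_perm_split (fun σ : Equiv.Perm (ZMod p) => ((fz σ : ℤ) : ZMod (p ^ 2)) -
    (1 - ((mv σ : ℕ) : ZMod (p ^ 2))) * ((Cz σ : ℤ) : ZMod (p ^ 2)))]
  · refine Finset.sum_eq_zero (fun a _ => ?_)
    rw [fz_shift, sub_self]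
  · intro σ _
    rw [Finset.sum_sub_distrib, sum_fz_cj]
    simp only [Cz_cj, mv_cj]
    rw [Finset.sum_const, Finset.card_univ, ZMod.card, nsmul_eq_mul]
    push_cast
    ring

end Pool.Agent.Q68.Perm
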