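import Pool.Agent.Q68.Perm.Sq1

set_option autoImplicit false

/-!
# The sums over the permutations of `ZMod p` with `m` moved points, `m < p`
-/

open Finset

namespace Pool.Agent.Q68.Perm

/-- `p x` modulo `p²` depends only on `x` modulo `p`. -/
theorem lift_p {p : ℕ} (x y : ℤ) (h : (x : ZMod p) = (y : ZMod p)) :
    ((p : ℤ) : ZMod (p ^ 2)) * (x : ZMod (p ^ 2)) = ((p : ℤ) : ZMod (p ^ 2)) * (y : ZMod (p ^ 2)) := by
  rw [← sub_eq_zero, ← mul_sub, ← Int.cast_sub, ← Int.cast_mul, ZMod.intCast_zmod_eq_zero_iff_dvd]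
  have h1 : (p : ℤ) ∣ x - y := by
    rw [← ZMod.intCast_zmod_eq_zero_iff_dvd]
    push_cast
    rw [h, sub_self]
  push_cast
  rw [sq]
  exact mul_dvd_mul_left _ h1

/-- permutations with `m` moved points. -/
def PM {p : ℕ} [NeZero p] (m : ℕ) : Finset (Equiv.Perm (ZMod p)) :=
  Finset.univ.filter (fun σ => mv σ = m)

theorem mem_PM {p : ℕ} [NeZero p] (m : ℕ) (σ : Equiv.Perm (ZMod p)) :
    σ ∈ PM m ↔ mv σ = m := by
  unfold PM; simp

/-- permutations with `m` moved points, among them not `0`. -/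
def PM0 {p : ℕ} [NeZero p] (m : ℕ) : Finset (Equiv.Perm (ZMod p)) :=
  Finset.univ.filter (fun σ => mv σ = m ∧ σ 0 = 0)

theorem mem_PM0 {p : ℕ} [NeZero p] (m : ℕ) (σ : Equiv.Perm (ZMod p)) :
    σ ∈ PM0 m ↔ mv σ = m ∧ σ 0 = 0 := by
  unfold PM0; simp

/-- Counting fixed points. -/
theorem fix_count {p : ℕ} [Fact p.Prime] (m : ℕ) :
    ((p : ℤ) - m) * ∑ σ ∈ (PM m : Finset (Equiv.Perm (ZMod p))), Cz σ =
      p * ∑ σ ∈ (PM0 m : Finset (Equiv.Perm (ZMod p))), Cz σ := by
  have h1 : ∀ i : ZMod p, (∑ σ ∈ (PM m : Finset (Equiv.Perm (ZMod p))),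
      (if σ i = i then Cz σ else 0)) = ∑ σ ∈ (PM0 m : Finset (Equiv.Perm (ZMod p))), Cz σ := by
    intro i
    rw [← Finset.sum_filter]
    refine Finset.sum_bij' (fun σ _ => cj (-i) σ) (fun σ _ => cj i σ) ?_ ?_ ?_ ?_ ?_
    · intro σ hσ
      rw [Finset.mem_filter, mem_PM] at hσ
      rw [mem_PM0, mv_cj]
      refine ⟨hσ.1, ?_⟩
      simp [hσ.2]
    · intro σ hσ
      rw [mem_PM0] at hσ
      rw [Finset.mem_filter, mem_PM, mv_cj]
      refine ⟨hσ.1, ?_⟩
      simp [hσ.2]
    · intro σ _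
      rw [← cj_add, add_neg_cancel, cj_zero]
    · intro σ _
      rw [← cj_add, neg_add_cancel, cj_zero]
    · intro σ _
      rw [Cz_cj]
  have h2 : ∀ σ ∈ (PM m : Finset (Equiv.Perm (ZMod p))), ((p : ℤ) - m) * Cz σ =
      ∑ i : ZMod p, (if σ i = i then Cz σ else 0) := by
    intro σ hσ
    rw [mem_PM] at hσ
    rw [← Finset.sum_filter, Finset.sum_const, nsmul_eq_mul]
    congr 1
    have h3 := Finset.card_filter_add_card_filter_not (s := (Finset.univ : Finset (ZMod p)))
      (fun i => σ i = i)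
    rw [Finset.card_univ, ZMod.card] at h3
    have h4 : (Finset.univ.filter (fun i => ¬ σ i = i)).card = m := hσ
    rw [h4] at h3
    have : ((Finset.univ.filter (fun i => σ i = i)).card : ℤ) + m = p := by exact_mod_cast h3
    linarith
  rw [Finset.mul_sum, Finset.sum_congr rfl h2, Finset.sum_comm]
  simp only [h1]
  rw [Finset.sum_const, Finset.card_univ, ZMod.card, nsmul_eq_mul]

/-- `cz` modulo `p`. -/
theorem cz_cast {p : ℕ} [NeZero p] (d : ZMod p) :
    ((cz d : ℤ) : ZMod p) = if d = 0 then 1 else d := by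
  unfold cz
  split_ifs with h
  · simp
  · rw [Int.cast_natCast, ZMod.natCast_zmod_val]

/-- conjugation by a multiplication. -/
def mj {p : ℕ} (u : (ZMod p)ˣ) (σ : Equiv.Perm (ZMod p)) : Equiv.Perm (ZMod p) :=
  (Units.mulLeft u⁻¹).trans (σ.trans (Units.mulLeft u))

theorem mj_apply {p : ℕ} (u : (ZMod p)ˣ) (σ : Equiv.Perm (ZMod p)) (i : ZMod p) :
    mj u σ i = u * σ (u⁻¹ * i) := by
  simp [mj]

theorem mj_mj {p : ℕ} (u : (ZMod p)ˣ) (σ : Equiv.Perm (ZMod p)) : mj u (mj u⁻¹ σ) = σ := by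
  apply Equiv.ext
  intro i
  simp [mj_apply]

theorem mj_mj' {p : ℕ} (u : (ZMod p)ˣ) (σ : Equiv.Perm (ZMod p)) : mj u⁻¹ (mj u σ) = σ := by
  apply Equiv.ext
  intro i
  simp [mj_apply]

theorem mv_mj {p : ℕ} [NeZero p] (u : (ZMod p)ˣ) (σ : Equiv.Perm (ZMod p)) :
    mv (mj u σ) = mv σ := by
  unfold mv
  symm
  refine Finset.card_bij (fun i _ => u * i) ?_ ?_ ?_
  · intro i hi
    simp only [Finset.mem_filter, Finset.mem_univ, true_and, mj_apply,
      Units.inv_mul_cancel_left] at hi ⊢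
    intro h
    exact hi (u.isUnit.mul_left_cancel h)
  · intro i _ j _ hij
    exact u.isUnit.mul_left_cancel hij
  · intro b hb
    simp only [Finset.mem_filter, Finset.mem_univ, true_and, mj_apply] at hb
    refine ⟨u⁻¹ * b, ?_, by simp⟩
    simp only [Finset.mem_filter, Finset.mem_univ, true_and]
    intro h
    apply hb
    rw [h]
    simp

theorem Cz_mj {p : ℕ} [Fact p.Prime] (u : (ZMod p)ˣ) (σ : Equiv.Perm (ZMod p)) :
    ((Cz (mj u σ) : ℤ) : ZMod p) = (u : ZMod p) ^ (mv σ) * ((Cz σ : ℤ) : ZMod p) := by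
  unfold Cz mv
  rw [Int.cast_prod, Int.cast_prod]
  rw [← Equiv.prod_comp (Units.mulLeft u) (fun i => ((cz ((mj u σ) i - i) : ℤ) : ZMod p))]
  rw [← Finset.prod_const, Finset.prod_filter, ← Finset.prod_mul_distrib]
  refine Finset.prod_congr rfl (fun i _ => ?_)
  rw [cz_cast, cz_cast]
  simp only [Units.mulLeft_apply, mj_apply, Units.inv_mul_cancel_left, ← mul_sub]
  by_cases h : σ i = i
  · simp [h]
  · have h' : σ i - i ≠ 0 := sub_ne_zero.mpr h
    rw [if_pos h, if_neg h', if_neg]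
    intro h0
    exact h' (u.isUnit.mul_left_cancel (by rw [h0, mul_zero]))

/-- for `0 < m < p - 1` the sum vanishes modulo `p`. -/
theorem T_mid {p : ℕ} [Fact p.Prime] (m : ℕ) (h0 : 0 < m) (h1 : m < p - 1) :
    ((∑ σ ∈ (PM0 m : Finset (Equiv.Perm (ZMod p))), Cz σ : ℤ) : ZMod p) = 0 := by
  set T : ZMod p := ((∑ σ ∈ (PM0 m : Finset (Equiv.Perm (ZMod p))), Cz σ : ℤ) : ZMod p) with hT
  have hp : p.Prime := Fact.out
  have h2 : ∀ u : (ZMod p)ˣ, T = (u : ZMod p) ^ m * T := by
    intro u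
    rw [hT, Int.cast_sum, Finset.mul_sum]
    refine Finset.sum_bij' (fun σ _ => mj u⁻¹ σ) (fun σ _ => mj u σ) ?_ ?_ ?_ ?_ ?_
    · intro σ hσ
      rw [mem_PM0] at hσ
      rw [mem_PM0, mv_mj]
      exact ⟨hσ.1, by rw [mj_apply, mul_zero, hσ.2, mul_zero]⟩
    · intro σ hσ
      rw [mem_PM0] at hσ
      rw [mem_PM0, mv_mj]
      exact ⟨hσ.1, by rw [mj_apply, mul_zero, hσ.2, mul_zero]⟩
    · intro σ _
      exact mj_mj u σ
    · intro σ _
      exact mj_mj' u σ
    · intro σ hσ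
      rw [mem_PM0] at hσ
      rw [Cz_mj, hσ.1, ← mul_assoc, ← mul_pow, Units.mul_inv, one_pow, one_mul]
  have h3 := FiniteField.sum_pow_units (ZMod p) m
  rw [ZMod.card, if_neg (fun h => by have := Nat.le_of_dvd h0 h; omega)] at h3
  have h4 : ∑ _u : (ZMod p)ˣ, T = ∑ u : (ZMod p)ˣ, (u : ZMod p) ^ m * T :=
    Finset.sum_congr rfl (fun u _ => h2 u)
  rw [← Finset.sum_mul, h3, zero_mul, Finset.sum_const, Finset.card_univ,
    ZMod.card_units_eq_totient, Nat.totient_prime hp, nsmul_eq_mul, Nat.cast_sub hp.one_le,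
    CharP.cast_eq_zero] at h4
  simpa using h4

/-- the permutations fixing `0`. -/
def P0 {p : ℕ} [NeZero p] : Finset (Equiv.Perm (ZMod p)) :=
  Finset.univ.filter (fun σ => σ 0 = 0)

theorem mem_P0 {p : ℕ} [NeZero p] (σ : Equiv.Perm (ZMod p)) : σ ∈ P0 ↔ σ 0 = 0 := by
  unfold P0; simp

theorem card_P0 {p : ℕ} [Fact p.Prime] :
    (P0 : Finset (Equiv.Perm (ZMod p))).card = (p - 1).factorial := by
  have hp : p.Prime := Fact.out
  have h1 := Finset.card_eq_sum_card_fiberwise (s := (Finset.univ : Finset (Equiv.Perm (ZMod p))))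
    (t := (Finset.univ : Finset (ZMod p))) (f := fun σ => σ 0) (fun _ _ => Finset.mem_coe.mpr (Finset.mem_univ _))
  have h2 : ∀ b : ZMod p, (Finset.univ.filter (fun σ : Equiv.Perm (ZMod p) => σ 0 = b)).card =
      (P0 : Finset (Equiv.Perm (ZMod p))).card := by
    intro b
    refine Finset.card_bij' (fun σ _ => σ.trans (Equiv.addRight (-b)))
      (fun σ _ => σ.trans (Equiv.addRight b)) ?_ ?_ ?_ ?_
    · intro σ hσ
      rw [Finset.mem_filter] at hσ
      rw [mem_P0]
      simp [hσ.2]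
    · intro σ hσ
      rw [mem_P0] at hσ
      rw [Finset.mem_filter]
      simp [hσ]
    · intro σ _
      apply Equiv.ext
      intro i
      simp
    · intro σ _
      apply Equiv.ext
      intro i
      simp
  simp only [h2] at h1
  rw [Finset.sum_const, Finset.card_univ, Finset.card_univ, Fintype.card_perm, ZMod.card,
    smul_eq_mul] at h1
  have h3 : p.factorial = p * (p - 1).factorial := (Nat.mul_factorial_pred hp.ne_zero).symm
  rw [h3] at h1
  exact (Nat.eq_of_mul_eq_mul_left hp.pos h1).symm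

theorem prod_erase_id {p : ℕ} [Fact p.Prime] :
    ∏ i ∈ (Finset.univ : Finset (ZMod p)).erase 0, i = -1 := by
  have h := FiniteField.prod_univ_units_id_eq_neg_one (K := ZMod p)
  have h2 := congrArg (fun u : (ZMod p)ˣ => (u : ZMod p)) h
  simp only [Units.coe_prod, Units.val_neg, Units.val_one] at h2
  rw [← h2]
  symm
  refine Finset.prod_bij (fun (u : (ZMod p)ˣ) _ => (u : ZMod p)) ?_ ?_ ?_ ?_
  · intro u _
    simp
  · intro u _ v _ huv
    exact Units.ext huv
  · intro b hb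
    rw [Finset.mem_erase] at hb
    exact ⟨Units.mk0 b hb.1, Finset.mem_univ _, rfl⟩
  · intro u _
    rfl

open Polynomial in
/-- the polynomial `Q`. -/
noncomputable def Qp (p : ℕ) [NeZero p] : (ZMod p)[X] :=
  ∑ σ ∈ (P0 : Finset (Equiv.Perm (ZMod p))), ∏ i ∈ (Finset.univ : Finset (ZMod p)).erase 0,
    (C (σ i) - C i * X)

theorem Qp_eval {p : ℕ} [NeZero p] (v : ZMod p) : (Qp p).eval v =
    ∑ σ ∈ (P0 : Finset (Equiv.Perm (ZMod p))), ∏ i ∈ (Finset.univ : Finset (ZMod p)).erase 0,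
    (σ i - i * v) := by
  unfold Qp
  rw [Polynomial.eval_finset_sum]
  refine Finset.sum_congr rfl (fun σ _ => ?_)
  rw [Polynomial.eval_prod]
  refine Finset.prod_congr rfl (fun i _ => ?_)
  simp

theorem prod_sigma_erase {p : ℕ} [Fact p.Prime] (σ : Equiv.Perm (ZMod p)) (h : σ 0 = 0) :
    ∏ i ∈ (Finset.univ : Finset (ZMod p)).erase 0, σ i = -1 := by
  rw [← prod_erase_id]
  refine Finset.prod_bij (fun i _ => σ i) ?_ ?_ ?_ ?_
  · intro i hi
    rw [Finset.mem_erase] at hi ⊢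
    refine ⟨fun h0 => hi.1 (σ.injective (by rw [h0, h])), Finset.mem_univ _⟩
  · intro i _ j _ hij
    exact σ.injective hij
  · intro b hb
    rw [Finset.mem_erase] at hb
    refine ⟨σ.symm b, ?_, by simp⟩
    rw [Finset.mem_erase]
    refine ⟨fun h0 => hb.1 ?_, Finset.mem_univ _⟩
    rw [← h, ← h0]
    simp
  · intro i _
    rfl

theorem Qp_zero {p : ℕ} [Fact p.Prime] : (Qp p).eval 0 = 1 := by
  rw [Qp_eval]
  simp only [mul_zero, sub_zero]
  rw [Finset.sum_congr rfl (fun σ hσ => prod_sigma_erase σ ((mem_P0 σ).mp hσ)), Finset.sum_const,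
    card_P0, nsmul_eq_mul, ZMod.wilsons_lemma]
  ring

theorem Qp_const {p : ℕ} [Fact p.Prime] (u : (ZMod p)ˣ) :
    (Qp p).eval (u : ZMod p) = (Qp p).eval 1 := by
  have hp : p.Prime := Fact.out
  rw [Qp_eval, Qp_eval]
  refine Finset.sum_bij' (fun σ _ => σ.trans (Units.mulLeft u⁻¹))
      (fun σ _ => σ.trans (Units.mulLeft u)) ?_ ?_ ?_ ?_ ?_
  · intro σ hσ
    rw [mem_P0] at hσ ⊢
    rw [Equiv.trans_apply, hσ, Units.mulLeft_apply]
    exact mul_zero _
  · intro σ hσ
    rw [mem_P0] at hσ ⊢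
    rw [Equiv.trans_apply, hσ, Units.mulLeft_apply]
    exact mul_zero _
  · intro σ _
    apply Equiv.ext
    intro i
    rw [Equiv.trans_apply, Equiv.trans_apply, Units.mulLeft_apply, Units.mulLeft_apply]
    exact Units.mul_inv_cancel_left _ _
  · intro σ _
    apply Equiv.ext
    intro i
    rw [Equiv.trans_apply, Equiv.trans_apply, Units.mulLeft_apply, Units.mulLeft_apply]
    exact Units.inv_mul_cancel_left _ _
  · intro σ _
    have h1 : ∀ i : ZMod p, σ i - i * u = u * ((u⁻¹ : (ZMod p)ˣ) * σ i - i * 1) := by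
      intro i
      rw [mul_sub, ← mul_assoc, Units.mul_inv]
      ring
    simp only [h1]
    rw [Finset.prod_mul_distrib, Finset.prod_const, Finset.card_erase_of_mem (Finset.mem_univ _),
      Finset.card_univ, ZMod.card, ZMod.pow_card_sub_one_eq_one u.ne_zero, one_mul]
    rfl

theorem Qp_deg {p : ℕ} [Fact p.Prime] : (Qp p).natDegree < p := by
  have hp : p.Prime := Fact.out
  have h1 : (Qp p).natDegree ≤ p - 1 := by
    unfold Qp
    refine Polynomial.natDegree_sum_le_of_forall_le _ _ (fun σ _ => ?_)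
    refine (Polynomial.natDegree_prod_le _ _).trans ?_
    refine (Finset.sum_le_card_nsmul _ _ 1 (fun i _ => ?_)).trans ?_
    · compute_degree
    · rw [Finset.card_erase_of_mem (Finset.mem_univ _), Finset.card_univ, ZMod.card]
      simp
  have := hp.one_lt
  omega

theorem Qp_lead {p : ℕ} [Fact p.Prime] (hp2 : p ≠ 2) : (Qp p).coeff (p - 1) = 1 := by
  have hp : p.Prime := Fact.out
  have hodd : Odd p := hp.odd_of_ne_two hp2
  unfold Qp
  rw [Polynomial.finset_sum_coeff]
  have hc : ((Finset.univ : Finset (ZMod p)).erase 0).card = p - 1 := by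
    rw [Finset.card_erase_of_mem (Finset.mem_univ _), Finset.card_univ, ZMod.card]
  have h1 : ∀ σ ∈ (P0 : Finset (Equiv.Perm (ZMod p))),
      (∏ i ∈ (Finset.univ : Finset (ZMod p)).erase 0,
        (Polynomial.C (σ i) - Polynomial.C i * Polynomial.X)).coeff (p - 1) = -1 := by
    intro σ _
    have h2 := Polynomial.coeff_prod_of_natDegree_le
      (s := (Finset.univ : Finset (ZMod p)).erase 0)
      (f := fun i : ZMod p => (Polynomial.C (σ i) - Polynomial.C i * Polynomial.X)) 1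
      (fun i _ => by compute_degree)
    rw [hc, mul_one] at h2
    rw [h2]
    have h3 : ∀ i : ZMod p, (Polynomial.C (σ i) - Polynomial.C i * Polynomial.X).coeff 1 = -1 * i := by
      intro i
      simp [Polynomial.coeff_C]
    simp only [h3]
    rw [Finset.prod_mul_distrib, prod_erase_id, Finset.prod_const, hc]
    have : Even (p - 1) := by
      obtain ⟨k, hk⟩ := hodd
      exact ⟨k, by omega⟩
    rw [this.neg_one_pow]
    ring
  rw [Finset.sum_congr rfl h1, Finset.sum_const, card_P0, nsmul_eq_mul, ZMod.wilsons_lemma]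
  ring

theorem sum_pow_full {p : ℕ} [Fact p.Prime] (P : Polynomial (ZMod p)) (hP : P.natDegree < p) :
    ∑ v : ZMod p, P.eval v = - P.coeff (p - 1) := by
  have hp : p.Prime := Fact.out
  have h1 : ∀ v : ZMod p, P.eval v = ∑ k ∈ range p, P.coeff k * v ^ k := fun v =>
    Polynomial.eval_eq_sum_range' hP v
  simp only [h1]
  rw [Finset.sum_comm]
  simp only [← Finset.mul_sum]
  rw [Finset.sum_eq_single (p - 1)]
  · have h2 : ∑ v : ZMod p, v ^ (p - 1) = -1 := by
      rw [← Finset.add_sum_erase _ _ (Finset.mem_univ (0 : ZMod p)),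
        zero_pow (by have := hp.one_lt; omega), zero_add]
      rw [Finset.sum_congr rfl (fun v hv => ZMod.pow_card_sub_one_eq_one (Finset.mem_erase.mp hv).1)]
      rw [Finset.sum_const, Finset.card_erase_of_mem (Finset.mem_univ _), Finset.card_univ,
        ZMod.card, nsmul_eq_mul, Nat.cast_sub hp.one_le, CharP.cast_eq_zero]
      simp
    rw [h2]; ring
  · intro k hk hk1
    rw [Finset.mem_range] at hk
    rw [FiniteField.sum_pow_lt_card_sub_one (ZMod p) k (by rw [ZMod.card]; omega), mul_zero]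
  · intro h
    exact absurd (Finset.mem_range.mpr (by have := hp.pos; omega)) h

theorem Qp_one {p : ℕ} [Fact p.Prime] (hp2 : p ≠ 2) : (Qp p).eval 1 = 2 := by
  have hp : p.Prime := Fact.out
  have h1 := sum_pow_full (Qp p) Qp_deg
  rw [Qp_lead hp2, ← Finset.add_sum_erase _ _ (Finset.mem_univ (0 : ZMod p)), Qp_zero] at h1
  have h2 : ∀ v ∈ (Finset.univ : Finset (ZMod p)).erase 0, (Qp p).eval v = (Qp p).eval 1 := by
    intro v hv
    exact Qp_const (Units.mk0 v (Finset.mem_erase.mp hv).1)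
  rw [Finset.sum_congr rfl h2, Finset.sum_const, Finset.card_erase_of_mem (Finset.mem_univ _),
    Finset.card_univ, ZMod.card, nsmul_eq_mul, Nat.cast_sub hp.one_le, CharP.cast_eq_zero] at h1
  push_cast at h1
  linear_combination -h1

/-- for `m = p - 1` the sum is `2` modulo `p`. -/
theorem T_top {p : ℕ} [Fact p.Prime] (hp2 : p ≠ 2) :
    ((∑ σ ∈ (PM0 (p - 1) : Finset (Equiv.Perm (ZMod p))), Cz σ : ℤ) : ZMod p) = 2 := by
  have hp : p.Prime := Fact.out
  have hodd : Odd p := hp.odd_of_ne_two hp2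
  rw [← Qp_one hp2, Qp_eval, Int.cast_sum]
  have hsub : (PM0 (p - 1) : Finset (Equiv.Perm (ZMod p))) ⊆ P0 := by
    intro σ hσ
    rw [mem_PM0] at hσ
    rw [mem_P0]
    exact hσ.2
  have hmv : ∀ σ : Equiv.Perm (ZMod p), σ 0 = 0 → (mv σ = p - 1 ↔ ∀ i, i ≠ 0 → σ i ≠ i) := by
    intro σ h0
    have hs : (Finset.univ.filter (fun i => σ i ≠ i)) ⊆ (Finset.univ : Finset (ZMod p)).erase 0 := by
      intro i hi
      rw [Finset.mem_filter] at hi
      rw [Finset.mem_erase]
      refine ⟨fun h => hi.2 (by rw [h, h0]), Finset.mem_univ _⟩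
    have hc : ((Finset.univ : Finset (ZMod p)).erase 0).card = p - 1 := by
      rw [Finset.card_erase_of_mem (Finset.mem_univ _), Finset.card_univ, ZMod.card]
    constructor
    · intro h i hi
      have h2 := Finset.eq_of_subset_of_card_le hs (by rw [hc]; exact h.ge)
      have : i ∈ (Finset.univ.filter (fun i => σ i ≠ i)) := by
        rw [h2, Finset.mem_erase]
        exact ⟨hi, Finset.mem_univ _⟩
      exact (Finset.mem_filter.mp this).2
    · intro h
      have h2 : (Finset.univ.filter (fun i => σ i ≠ i)) = (Finset.univ : Finset (ZMod p)).erase 0 := by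
        apply Finset.Subset.antisymm hs
        intro i hi
        rw [Finset.mem_erase] at hi
        rw [Finset.mem_filter]
        exact ⟨Finset.mem_univ _, h i hi.1⟩
      unfold mv
      rw [h2, hc]
  rw [← Finset.sum_subset hsub]
  · refine Finset.sum_congr rfl (fun σ hσ => ?_)
    rw [mem_PM0] at hσ
    unfold Cz
    rw [Int.cast_prod, ← Finset.mul_prod_erase _ _ (Finset.mem_univ (0 : ZMod p)), cz_cast,
      hσ.2, sub_zero, if_pos rfl, one_mul]
    refine Finset.prod_congr rfl (fun i hi => ?_)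
    have h1 := (hmv σ hσ.2).mp hσ.1 i (Finset.mem_erase.mp hi).1
    rw [cz_cast, if_neg (sub_ne_zero.mpr h1), mul_one]
  · intro σ hσ hσ'
    rw [mem_P0] at hσ
    rw [mem_PM0] at hσ'
    have h1 : ¬ (∀ i, i ≠ 0 → σ i ≠ i) := fun h => hσ' ⟨(hmv σ hσ).mpr h, hσ⟩
    push Not at h1
    obtain ⟨i, hi, hi2⟩ := h1
    apply Finset.prod_eq_zero (Finset.mem_erase.mpr ⟨hi, Finset.mem_univ _⟩)
    rw [hi2]
    ring

end Pool.Agent.Q68.Perm
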