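import Pool.Agent.Q68.Perm.Sq2

set_option autoImplicit false

/-!
# The sum over the derangements, and the permanent of `j - k + δ_{jk}` modulo `p²`
-/

open Finset

namespace Pool.Agent.Q68.Perm

/-- the action of `(ZMod p)²` on the permutations. -/
def dj {p : ℕ} (a : ZMod p × ZMod p) (σ : Equiv.Perm (ZMod p)) : Equiv.Perm (ZMod p) :=
  (Equiv.addRight (-a.1)).trans (σ.trans (Equiv.addRight a.2))

theorem dj_apply {p : ℕ} (a : ZMod p × ZMod p) (σ : Equiv.Perm (ZMod p)) (i : ZMod p) :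
    dj a σ i = σ (i - a.1) + a.2 := by
  simp [dj, sub_eq_add_neg]

theorem dj_zero {p : ℕ} (σ : Equiv.Perm (ZMod p)) : dj 0 σ = σ := by
  apply Equiv.ext
  intro i
  simp [dj_apply]

theorem dj_add {p : ℕ} (a b : ZMod p × ZMod p) (σ : Equiv.Perm (ZMod p)) :
    dj (a + b) σ = dj a (dj b σ) := by
  apply Equiv.ext
  intro i
  simp only [dj_apply, Prod.fst_add, Prod.snd_add]
  rw [show i - (a.1 + b.1) = i - a.1 - b.1 by ring]
  ring

/-- the weight of the derangements. -/
def hz {p : ℕ} [NeZero p] (σ : Equiv.Perm (ZMod p)) : ℤ := ∏ i, ((σ i - i).val : ℤ)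

theorem sum_hz_dj {p : ℕ} [Fact p.Prime] (hp2 : p ≠ 2) (σ : Equiv.Perm (ZMod p)) :
    ∑ a : ZMod p × ZMod p, ((hz (dj a σ) : ℤ) : ZMod (p ^ 2)) = 0 := by
  have hp : p.Prime := Fact.out
  have h1 : ∀ a : ZMod p × ZMod p, hz (dj a σ) = ∏ i, ((σ i - i + (a.2 - a.1)).val : ℤ) := by
    intro a
    unfold hz
    rw [← Equiv.prod_comp (Equiv.addRight a.1) (fun i => (((dj a σ) i - i).val : ℤ))]
    refine Finset.prod_congr rfl (fun i _ => ?_)
    rw [dj_apply, Equiv.coe_addRight, add_sub_cancel_right]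
    congr 2
    ring
  simp only [h1]
  rw [Fintype.sum_prod_type]
  have h2 : ∀ x : ZMod p, (∑ y : ZMod p, ((∏ i, ((σ i - i + (y - x)).val : ℤ) : ℤ) : ZMod (p ^ 2))) =
      ∑ c : ZMod p, ((∏ i, ((σ i - i + c).val : ℤ) : ℤ) : ZMod (p ^ 2)) := by
    intro x
    exact Equiv.sum_comp (Equiv.subRight x)
      (fun c => ((∏ i, ((σ i - i + c).val : ℤ) : ℤ) : ZMod (p ^ 2)))
  dsimp only
  rw [Finset.sum_congr rfl (fun x _ => h2 x), Finset.sum_const, Finset.card_univ, ZMod.card,
    nsmul_eq_mul, ← Int.cast_sum]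
  have h3 : ((∑ c : ZMod p, ∏ i, ((σ i - i + c).val : ℤ) : ℤ) : ZMod p) = ((0 : ℤ) : ZMod p) := by
    push_cast
    have h4 : ∀ c : ZMod p, (∏ i, (((σ i - i + c).val : ℕ) : ZMod p)) =
        (∏ i, (Polynomial.X - Polynomial.C (i - σ i))).eval c := by
      intro c
      rw [Polynomial.eval_prod]
      refine Finset.prod_congr rfl (fun i _ => ?_)
      rw [ZMod.natCast_zmod_val, Polynomial.eval_sub, Polynomial.eval_X, Polynomial.eval_C]
      ring
    simp only [h4]
    set P : Polynomial (ZMod p) := ∏ i, (Polynomial.X - Polynomial.C (i - σ i)) with hPdef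
    have hmon : P.Monic := Polynomial.monic_prod_of_monic _ _ (fun i _ => Polynomial.monic_X_sub_C _)
    have hdeg : P.natDegree = p := by
      rw [hPdef, Polynomial.natDegree_prod_of_monic _ _ (fun i _ => Polynomial.monic_X_sub_C _)]
      simp only [Polynomial.natDegree_X_sub_C]
      rw [Finset.sum_const, Finset.card_univ, ZMod.card, smul_eq_mul, mul_one]
    have hc : P.coeff (p - 1) = 0 := by
      have h5 := Polynomial.prod_X_sub_C_coeff_card_pred
        (Finset.univ : Finset (ZMod p)) (fun i => i - σ i) (by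
          rw [Finset.card_univ, ZMod.card]; exact hp.pos)
      rw [Finset.card_univ, ZMod.card] at h5
      rw [hPdef, h5, Finset.sum_sub_distrib, Equiv.sum_comp σ (fun i => i), sub_self, neg_zero]
    have h6 := sum_pow_full (P - Polynomial.X ^ p) (by
      have h7 : (P - Polynomial.X ^ p).degree < P.degree := by
        apply Polynomial.degree_sub_lt
        · rw [Polynomial.degree_eq_natDegree hmon.ne_zero, hdeg, Polynomial.degree_X_pow]
        · exact hmon.ne_zero
        · rw [hmon.leadingCoeff, Polynomial.leadingCoeff_X_pow]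
      rw [Polynomial.degree_eq_natDegree hmon.ne_zero, hdeg] at h7
      by_cases h8 : P - Polynomial.X ^ p = 0
      · rw [h8, Polynomial.natDegree_zero]; exact hp.pos
      · exact (Polynomial.natDegree_lt_iff_degree_lt h8).mpr h7)
    rw [Polynomial.coeff_sub, hc, Polynomial.coeff_X_pow, if_neg (by have := hp.pos; omega),
      sub_zero, neg_zero] at h6
    simp only [Polynomial.eval_sub, Polynomial.eval_pow, Polynomial.eval_X] at h6
    rw [Finset.sum_sub_distrib] at h6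
    have h9 : ∑ v : ZMod p, v ^ p = 0 := by
      simp only [ZMod.pow_card]
      have h10 := FiniteField.sum_pow_lt_card_sub_one (ZMod p) 1 (by
        rw [ZMod.card]
        have := hp.two_le
        omega)
      simpa using h10
    rw [h9, sub_zero] at h6
    simpa using h6
  have h5 := lift_p _ _ h3
  rw [Int.cast_natCast] at h5
  rw [h5]
  simp

/-- a permutation which is not free for `dj` is affine. -/
theorem affine_of_fixed {p : ℕ} [Fact p.Prime] (a : ZMod p × ZMod p) (ha : a ≠ 0)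
    (σ : Equiv.Perm (ZMod p)) (h : dj a σ = σ) :
    ∃ k : ZMod p, ∀ i, σ i = σ 0 + k * i := by
  have h1 : ∀ i, σ (i + a.1) = σ i + a.2 := by
    intro i
    have := congrArg (fun τ : Equiv.Perm (ZMod p) => τ (i + a.1)) h
    simp only [dj_apply, add_sub_cancel_right] at this
    exact this.symm
  have ha1 : a.1 ≠ 0 := by
    intro h0
    apply ha
    have h2 := h1 0
    rw [h0, add_zero] at h2
    have h3 : a.2 = 0 := by
      have := h2.symm
      simpa using this
    exact Prod.ext h0 h3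
  have h2 : ∀ (k : ℕ) (i : ZMod p), σ (i + k * a.1) = σ i + k * a.2 := by
    intro k
    induction k with
    | zero => intro i; simp
    | succ k ih =>
      intro i
      have : i + ((k + 1 : ℕ) : ZMod p) * a.1 = (i + k * a.1) + a.1 := by push_cast; ring
      rw [this, h1, ih]
      push_cast; ring
  refine ⟨a.2 / a.1, fun t => ?_⟩
  have h3 := h2 (t / a.1).val 0
  rw [ZMod.natCast_zmod_val, div_mul_cancel₀ _ ha1, zero_add] at h3
  rw [h3]
  ring

theorem hz_affine {p : ℕ} [Fact p.Prime] (σ : Equiv.Perm (ZMod p)) (k : ZMod p)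
    (h : ∀ i, σ i = σ 0 + k * i) (hσ : ¬ ∃ c : ZMod p, σ = Equiv.addRight c) : hz σ = 0 := by
  have hk : k ≠ 1 := by
    intro hk
    apply hσ
    refine ⟨σ 0, ?_⟩
    apply Equiv.ext
    intro i
    rw [h i, hk, one_mul, Equiv.coe_addRight, add_comm]
  have hk' : 1 - k ≠ 0 := sub_ne_zero.mpr (Ne.symm hk)
  unfold hz
  apply Finset.prod_eq_zero (Finset.mem_univ (σ 0 / (1 - k)))
  rw [h (σ 0 / (1 - k))]
  have : σ 0 + k * (σ 0 / (1 - k)) - σ 0 / (1 - k) = 0 := by
    field_simp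
    ring
  rw [this]
  simp

theorem hz_shift {p : ℕ} [Fact p.Prime] (c : ZMod p) :
    hz (Equiv.addRight c) = ((c.val : ℤ)) ^ p := by
  unfold hz
  simp only [Equiv.coe_addRight, add_sub_cancel_left]
  rw [Finset.prod_const, Finset.card_univ, ZMod.card]

theorem sum_hz_shift {p : ℕ} [Fact p.Prime] (hp2 : p ≠ 2) :
    ∑ c : ZMod p, ((hz (Equiv.addRight c) : ℤ) : ZMod (p ^ 2)) = 0 := by
  have hp : p.Prime := Fact.out
  have hodd : Odd p := hp.odd_of_ne_two hp2
  simp only [hz_shift]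
  set S : ZMod (p ^ 2) := ∑ c : ZMod p, (((c.val : ℤ) ^ p : ℤ) : ZMod (p ^ 2)) with hS
  have h1 : S = -S := by
    nth_rw 1 [hS]
    rw [← Equiv.sum_comp (Equiv.neg (ZMod p)), hS, ← Finset.sum_neg_distrib]
    refine Finset.sum_congr rfl (fun c _ => ?_)
    rw [← sub_eq_zero, sub_neg_eq_add, ← Int.cast_add, ZMod.intCast_zmod_eq_zero_iff_dvd]
    have h2 : (p : ℤ) ∣ (((Equiv.neg (ZMod p)) c).val : ℤ) - (-(c.val : ℤ)) := by
      rw [← ZMod.intCast_zmod_eq_zero_iff_dvd]
      push_cast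
      rw [ZMod.natCast_zmod_val, ZMod.natCast_zmod_val]
      simp
    have h3 := dvd_sub_pow_of_dvd_sub h2 1
    rw [pow_one, hodd.neg_pow, sub_neg_eq_add] at h3
    push_cast
    exact h3
  have h2 : (2 : ZMod (p ^ 2)) * S = 0 := by linear_combination h1
  have h3 : IsUnit (2 : ZMod (p ^ 2)) := by
    have : ((2 : ℕ) : ZMod (p ^ 2)) = 2 := by norm_cast
    rw [← this, ZMod.isUnit_iff_coprime]
    apply Nat.Coprime.pow_right
    exact (Nat.coprime_primes Nat.prime_two hp).mpr (Ne.symm hp2)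
  exact (h3.mul_right_eq_zero).mp h2

/-- `σ` is not fixed by any nonzero element of `(ZMod p)²`. -/
def Fd {p : ℕ} (σ : Equiv.Perm (ZMod p)) : Prop := ∀ a : ZMod p × ZMod p, dj a σ = σ → a = 0

/-- the sum over the derangements vanishes modulo `p²`. -/
theorem sum_hz {p : ℕ} [Fact p.Prime] (hp2 : p ≠ 2) :
    ∑ σ : Equiv.Perm (ZMod p), ((hz σ : ℤ) : ZMod (p ^ 2)) = 0 := by
  classical
  have h1 : ∑ σ ∈ Finset.univ.filter (fun σ : Equiv.Perm (ZMod p) => Fd σ),
      ((hz σ : ℤ) : ZMod (p ^ 2)) = 0 := by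
    refine orbit_sum (G := ZMod p × ZMod p) (X := Equiv.Perm (ZMod p)) (R := ZMod (p ^ 2)) dj
      ?_ ?_ (fun σ => ((hz σ : ℤ) : ZMod (p ^ 2))) ?_ _ ?_
    · intro x
      exact dj_zero x
    · intro a b x
      exact dj_add a b x
    · intro σ _
      exact sum_hz_dj hp2 σ
    · intro x
      rw [Finset.mem_filter]
      exact ⟨fun h => h.2, fun h => ⟨Finset.mem_univ _, h⟩⟩
  rw [← Finset.sum_filter_add_sum_filter_not Finset.univ
    (fun σ : Equiv.Perm (ZMod p) => Fd σ), h1, zero_add]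
  have h2 : Finset.univ.image (fun a : ZMod p => (Equiv.addRight a : Equiv.Perm (ZMod p))) ⊆
      Finset.univ.filter (fun σ : Equiv.Perm (ZMod p) => ¬ Fd σ) := by
    intro σ hσ
    rw [Finset.mem_image] at hσ
    obtain ⟨c, -, rfl⟩ := hσ
    rw [Finset.mem_filter]
    refine ⟨Finset.mem_univ _, fun hcon => ?_⟩
    have h3 := hcon (1, 1) (by
      apply Equiv.ext
      intro i
      rw [dj_apply, Equiv.coe_addRight]
      ring)
    exact one_ne_zero (congrArg Prod.fst h3)
  rw [← Finset.sum_subset h2]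
  · rw [Finset.sum_image (fun a _ b _ hab => addRight_inj a b hab)]
    exact sum_hz_shift hp2
  · intro σ hσ hσ'
    rw [Finset.mem_filter] at hσ
    have h3 : ¬ ∃ c : ZMod p, σ = Equiv.addRight c := by
      rintro ⟨c, hc⟩
      apply hσ'
      rw [Finset.mem_image]
      exact ⟨c, Finset.mem_univ _, hc.symm⟩
    have h4 := hσ.2
    unfold Fd at h4
    push Not at h4
    obtain ⟨a, ha, ha0⟩ := h4
    obtain ⟨k, hk⟩ := affine_of_fixed a ha0 σ ha
    rw [hz_affine σ k hk h3]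
    simp

theorem mv_le {p : ℕ} [NeZero p] (σ : Equiv.Perm (ZMod p)) : mv σ ≤ p := by
  unfold mv
  have := Finset.card_le_univ (Finset.univ.filter (fun i => σ i ≠ i))
  rwa [ZMod.card] at this

theorem sum_PM_top {p : ℕ} [Fact p.Prime] (hp2 : p ≠ 2) :
    ∑ σ ∈ (PM p : Finset (Equiv.Perm (ZMod p))), ((Cz σ : ℤ) : ZMod (p ^ 2)) = 0 := by
  rw [← sum_hz hp2]
  have hall : ∀ σ : Equiv.Perm (ZMod p), σ ∈ (PM p : Finset (Equiv.Perm (ZMod p))) ↔
      ∀ i, σ i ≠ i := by
    intro σ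
    rw [mem_PM]
    unfold mv
    constructor
    · intro h i
      have h2 := Finset.eq_univ_of_card (Finset.univ.filter (fun i => σ i ≠ i)) (by
        rw [h, ZMod.card])
      have : i ∈ (Finset.univ.filter (fun i => σ i ≠ i)) := by rw [h2]; exact Finset.mem_univ _
      exact (Finset.mem_filter.mp this).2
    · intro h
      rw [Finset.filter_true_of_mem (fun i _ => h i), Finset.card_univ, ZMod.card]
  rw [← Finset.sum_subset (Finset.subset_univ (PM p : Finset (Equiv.Perm (ZMod p))))]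
  · refine Finset.sum_congr rfl (fun σ hσ => ?_)
    rw [hall] at hσ
    unfold Cz hz
    congr 1
    refine Finset.prod_congr rfl (fun i _ => ?_)
    unfold cz
    rw [if_neg (sub_ne_zero.mpr (hσ i))]
  · intro σ _ hσ'
    rw [hall] at hσ'
    push Not at hσ'
    obtain ⟨i, hi⟩ := hσ'
    have : hz σ = 0 := by
      unfold hz
      apply Finset.prod_eq_zero (Finset.mem_univ i)
      rw [hi]; simp
    rw [this]; simp

theorem sum_PM_mid {p : ℕ} [Fact p.Prime] (m : ℕ) (h0 : 0 < m) (h1 : m < p - 1) :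
    ∑ σ ∈ (PM m : Finset (Equiv.Perm (ZMod p))), ((Cz σ : ℤ) : ZMod (p ^ 2)) = 0 := by
  have hp : p.Prime := Fact.out
  have h2 := congrArg (fun z : ℤ => (z : ZMod (p ^ 2))) (fix_count (p := p) m)
  rw [Int.cast_mul, Int.cast_mul] at h2
  have h3 := T_mid (p := p) m h0 h1
  have h4 := lift_p (p := p) (∑ σ ∈ (PM0 m : Finset (Equiv.Perm (ZMod p))), Cz σ) 0
    (by rw [h3]; simp)
  rw [h4, Int.cast_zero, mul_zero, Int.cast_sum] at h2
  have h5 : IsUnit (((p : ℤ) - (m : ℤ) : ℤ) : ZMod (p ^ 2)) := by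
    have h6 : ((p : ℤ) - (m : ℤ) : ℤ) = ((p - m : ℕ) : ℤ) := by
      rw [Nat.cast_sub (by omega)]
    rw [h6, Int.cast_natCast, ZMod.isUnit_iff_coprime]
    apply Nat.Coprime.pow_right
    rw [Nat.coprime_comm]
    refine (Nat.Prime.coprime_iff_not_dvd hp).mpr (fun hd => ?_)
    have := Nat.le_of_dvd (by omega) hd
    omega
  exact (h5.mul_right_eq_zero).mp h2

theorem sum_PM_sub {p : ℕ} [Fact p.Prime] (hp2 : p ≠ 2) :
    ∑ σ ∈ (PM (p - 1) : Finset (Equiv.Perm (ZMod p))), ((Cz σ : ℤ) : ZMod (p ^ 2)) =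
      2 * ((p : ℤ) : ZMod (p ^ 2)) := by
  have hp : p.Prime := Fact.out
  have h2 := congrArg (fun z : ℤ => (z : ZMod (p ^ 2))) (fix_count (p := p) (p - 1))
  rw [Int.cast_mul, Int.cast_mul] at h2
  have h3 := T_top (p := p) hp2
  have h4 := lift_p (p := p) (∑ σ ∈ (PM0 (p - 1) : Finset (Equiv.Perm (ZMod p))), Cz σ) 2
    (by rw [h3]; norm_cast)
  rw [h4, Int.cast_sum, Nat.cast_sub hp.one_le] at h2
  push_cast at h2 ⊢
  linear_combination h2

theorem sum_PM_zero {p : ℕ} [Fact p.Prime] :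
    ∑ σ ∈ (PM 0 : Finset (Equiv.Perm (ZMod p))), ((Cz σ : ℤ) : ZMod (p ^ 2)) = 1 := by
  have h1 : (PM 0 : Finset (Equiv.Perm (ZMod p))) = {Equiv.refl _} := by
    apply Finset.ext
    intro σ
    rw [mem_PM, Finset.mem_singleton]
    unfold mv
    rw [Finset.card_eq_zero, Finset.filter_eq_empty_iff]
    constructor
    · intro h
      apply Equiv.ext
      intro i
      have := h (Finset.mem_univ i)
      push Not at this
      exact this
    · rintro rfl i _
      simp
  rw [h1, Finset.sum_singleton]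
  unfold Cz cz
  simp

/-- the total. -/
theorem total {p : ℕ} [Fact p.Prime] (hp2 : p ≠ 2) :
    ∑ σ : Equiv.Perm (ZMod p), ((fz σ : ℤ) : ZMod (p ^ 2)) =
      1 + 4 * ((p : ℤ) : ZMod (p ^ 2)) := by
  have hp : p.Prime := Fact.out
  rw [sum_fz]
  rw [← Finset.sum_fiberwise_of_maps_to (s := (Finset.univ : Finset (Equiv.Perm (ZMod p))))
    (t := Finset.range (p + 1)) (g := fun σ => mv σ)
    (fun σ _ => Finset.mem_range.mpr (by have := mv_le σ; omega))]
  have h1 : ∀ m, (∑ σ ∈ Finset.univ.filter (fun σ : Equiv.Perm (ZMod p) => mv σ = m),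
      (1 - ((mv σ : ℕ) : ZMod (p ^ 2))) * ((Cz σ : ℤ) : ZMod (p ^ 2))) =
      (1 - (m : ZMod (p ^ 2))) *
        ∑ σ ∈ (PM m : Finset (Equiv.Perm (ZMod p))), ((Cz σ : ℤ) : ZMod (p ^ 2)) := by
    intro m
    rw [Finset.mul_sum]
    unfold PM
    refine Finset.sum_congr rfl (fun σ hσ => ?_)
    rw [Finset.mem_filter] at hσ
    rw [hσ.2]
  simp only [h1]
  obtain ⟨q, hq⟩ : ∃ q, p = q + 2 := ⟨p - 2, by have := hp.two_le; omega⟩
  have hr : Finset.range (p + 1) = Finset.range (q + 3) := by rw [hq]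
  rw [hr, Finset.sum_range_succ, Finset.sum_range_succ]
  have e1 : q + 2 = p := hq.symm
  have e2 : q + 1 = p - 1 := by omega
  rw [e1, e2, sum_PM_top hp2, sum_PM_sub hp2]
  rw [Finset.sum_eq_single 0]
  · rw [sum_PM_zero, Nat.cast_sub hp.one_le]
    have := pp_zero (p := p)
    push_cast at this ⊢
    linear_combination -2 * this
  · intro m hm hm0
    rw [Finset.mem_range] at hm
    rw [sum_PM_mid m (Nat.pos_of_ne_zero hm0) (by omega), mul_zero]
  · intro h
    exact absurd (Finset.mem_range.mpr (by omega)) h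

/-- **The permanent of `j - k + δ_{jk}` modulo `p²`**, over `ZMod p`. -/
theorem per_sq {p : ℕ} [Fact p.Prime] (hp2 : p ≠ 2) :
    ((p : ℤ) ^ 2) ∣ (Matrix.of (fun l i : ZMod p => ez l i)).permanent - (1 + 4 * p) := by
  have h0 : ((p : ℤ) ^ 2) = ((p ^ 2 : ℕ) : ℤ) := by push_cast; ring
  rw [h0, ← ZMod.intCast_zmod_eq_zero_iff_dvd]
  have h1 : (Matrix.of (fun l i : ZMod p => ez l i)).permanent =
      ∑ σ : Equiv.Perm (ZMod p), fz σ := rfl
  rw [h1, Int.cast_sub, Int.cast_sum, total hp2]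
  push_cast
  ring

/-- the same over `Fin p`. -/
theorem per_sq_fin (p : ℕ) (hp : p.Prime) (hp2 : p ≠ 2) :
    (Matrix.of (fun j k : Fin p =>
      (((j : ℕ) : ℤ) + 1) - (((k : ℕ) : ℤ) + 1) + if j = k then (1 : ℤ) else 0)).permanent ≡
        4 * p + 1 [ZMOD ((p : ℤ) ^ 2)] := by
  haveI : Fact p.Prime := ⟨hp⟩
  have h := per_sq (p := p) hp2
  obtain ⟨n, rfl⟩ : ∃ n, p = n + 1 := ⟨p - 1, by have := hp.pos; omega⟩
  have h2 : (Matrix.of (fun j k : Fin (n + 1) =>
      (((j : ℕ) : ℤ) + 1) - (((k : ℕ) : ℤ) + 1) + if j = k then (1 : ℤ) else 0)) =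
      (Matrix.of (fun l i : ZMod (n + 1) => ez l i) : Matrix (ZMod (n + 1)) (ZMod (n + 1)) ℤ) := by
    apply Matrix.ext
    intro j k
    show (((j : ℕ) : ℤ) + 1) - (((k : ℕ) : ℤ) + 1) + (if j = k then (1 : ℤ) else 0) =
      if j = k then 1 else (((j : ℕ) : ℤ) - ((k : ℕ) : ℤ))
    split_ifs with hjk
    · subst hjk; ring
    · ring
  rw [h2]
  refine Int.ModEq.symm ((Int.modEq_iff_dvd).mpr ?_)
  rw [add_comm (4 * ((n + 1 : ℕ) : ℤ)) 1]
  exact h

end Pool.Agent.Q68.Perm
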